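import Pool.Agent.H3.BI.Stm1

/-!
# Project BD, part LEV
-/

set_option autoImplicit false

open scoped ENNReal
open Finset MeasureTheory

namespace Pool.Agent.H45.BD

open Pool.Agent.H3.BI

namespace LevP

variable {d : ℕ}

/-! ### Norms -/

theorem nrm_eq (x : Site d) : nrm x = ‖(WithLp.toLp 2 (fun i => (x i : ℝ)) : EuclideanSpace ℝ (Fin d))‖ := by
  rw [EuclideanSpace.norm_eq]
  unfold nrm nsq
  congr 1
  refine Finset.sum_congr rfl fun i _ => ?_
  simp

theorem nrm_add_le (x y : Site d) : nrm (x + y) ≤ nrm x + nrm y := by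
  rw [nrm_eq, nrm_eq, nrm_eq]
  refine le_of_eq_of_le ?_ (norm_add_le _ _)
  congr 1
  ext i
  simp

theorem nrm_neg (x : Site d) : nrm (-x) = nrm x := by
  unfold nrm nsq
  simp

theorem nrm_sub_le (x y : Site d) : nrm (x - y) ≤ nrm x + nrm y := by
  rw [sub_eq_add_neg]
  exact (nrm_add_le _ _).trans (by rw [nrm_neg])

theorem nrm_uvec (e : Dir d) : nrm (uvec e) = 1 := by
  unfold nrm nsq uvec
  rw [Finset.sum_eq_single e.1]
  · rw [Pi.single_eq_same]
    split_ifs <;> simp
  · intro j _ hj
    rw [Pi.single_eq_of_ne hj]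
    simp
  · intro h
    exact absurd (Finset.mem_univ _) h

theorem nrm_zero : nrm (0 : Site d) = 0 := by
  unfold nrm nsq
  simp

theorem nrm_step (x a : Site d) (e : Dir d) : nrm (x + uvec e - a) ≤ nrm (x - a) + 1 := by
  have := nrm_add_le (x - a) (uvec e)
  rw [nrm_uvec] at this
  rwa [show x + uvec e - a = x - a + uvec e by abel]

theorem nrm_step' (x a : Site d) (e : Dir d) : nrm (x - a) ≤ nrm (x + uvec e - a) + 1 := by
  have := nrm_sub_le (x + uvec e - a) (uvec e)
  rw [nrm_uvec] at this
  rwa [show x + uvec e - a - uvec e = x - a by abel] at this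

theorem nrm_tri (x y z : Site d) : nrm (x - z) ≤ nrm (x - y) + nrm (y - z) := by
  have := nrm_add_le (x - y) (y - z)
  rwa [sub_add_sub_cancel] at this

theorem nrm_symm (x y : Site d) : nrm (x - y) = nrm (y - x) := by
  rw [← nrm_neg, neg_sub]

/-! ### Averages -/

theorem card_dir : (Fintype.card (Dir d) : ℝ≥0∞) = 2 * d := by
  rw [Fintype.card_prod, Fintype.card_fin, Fintype.card_bool]
  push_cast
  ring

theorem avg_const (hd : 3 ≤ d) (c : ℝ≥0∞) : (∑ _e : Dir d, c) / (2 * (d : ℝ≥0∞)) = c := by
  rw [Finset.sum_const, nsmul_eq_mul, Finset.card_univ, card_dir, mul_comm]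
  refine ENNReal.mul_div_cancel_right ?_ ?_
  · simp
    omega
  · exact ENNReal.mul_ne_top (by simp) (by simp)

theorem avg_add (f g : Dir d → ℝ≥0∞) : (∑ e, (f e + g e)) / (2 * (d : ℝ≥0∞)) =
    (∑ e, f e) / (2 * (d : ℝ≥0∞)) + (∑ e, g e) / (2 * (d : ℝ≥0∞)) := by
  rw [Finset.sum_add_distrib, ENNReal.add_div]

theorem avg_mul (c : ℝ≥0∞) (f : Dir d → ℝ≥0∞) : (∑ e, c * f e) / (2 * (d : ℝ≥0∞)) =
    c * ((∑ e, f e) / (2 * (d : ℝ≥0∞))) := by
  rw [← Finset.mul_sum, mul_div_assoc]

theorem avg_mono {f g : Dir d → ℝ≥0∞} (h : ∀ e, f e ≤ g e) : (∑ e, f e) / (2 * (d : ℝ≥0∞)) ≤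
    (∑ e, g e) / (2 * (d : ℝ≥0∞)) :=
  ENNReal.div_le_div_right (Finset.sum_le_sum fun e _ => h e) _

theorem stE_lin (hd : 3 ≤ d) (D B : Set (Site d)) (x : Site d) (c1 c2 : ℝ≥0∞)
    (f : ES d → ℝ≥0∞) (m : ℕ) : ∀ e, stE D B x m (fun e => c1 * f e + c2) e =
      c1 * stE D B x m f e + c2 := by
  induction m with
  | zero => intro e; rfl
  | succ m ih =>
    intro e
    unfold stE
    simp only [ih]
    rw [avg_add, avg_const hd, avg_mul]

theorem topE_lin (hd : 3 ≤ d) (ν : PMF ℕ) (D B : Set (Site d)) (x : Site d) (c1 c2 : ℝ≥0∞)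
    (f : ES d → ℝ≥0∞) (e : ES d) : topE ν D B x (fun e => c1 * f e + c2) e =
      c1 * topE ν D B x f e + c2 := by
  unfold topE
  simp only [stE_lin hd]
  simp only [mul_add, ENNReal.tsum_add, ENNReal.tsum_mul_right, ν.tsum_coe, one_mul]
  congr 1
  rw [← ENNReal.tsum_mul_left]
  exact tsum_congr fun k => mul_left_comm _ _ _

theorem mean_one (ν : PMF ℕ) (h : ConditionH ν) : ∑' k : ℕ, ν k * (k : ℝ≥0∞) = 1 := by
  have h1 : ∀ k : ℕ, ν k * (k : ℝ≥0∞) = ENNReal.ofReal ((ν k).toReal * (k : ℝ)) := by
    intro k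
    rw [ENNReal.ofReal_mul ENNReal.toReal_nonneg, ENNReal.ofReal_toReal (ν.apply_ne_top k),
      ENNReal.ofReal_natCast]
  rw [tsum_congr h1, ← ENNReal.ofReal_tsum_of_nonneg _ h.mean.summable, h.mean.tsum_eq,
    ENNReal.ofReal_one]
  intro k
  positivity

/-! ### Permutations -/

theorem steps_perm (D : Set (Site d)) (x : Site d) (f : Cf d → ℝ≥0∞)
    (hf : ∀ A L L', List.Perm L L' → f (A, L) = f (A, L')) (m : ℕ) :
    ∀ A L L', List.Perm L L' → steps D x m f (A, L) = steps D x m f (A, L') := by
  induction m with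
  | zero => exact hf
  | succ m ih =>
    intro A L L' h
    unfold steps
    congr 1
    refine Finset.sum_congr rfl fun e _ => ?_
    unfold arr
    by_cases h1 : x + uvec e ∈ A
    · by_cases h2 : x + uvec e ∈ D
      · simp only [h1, h2, if_true]
        exact ih _ _ _ (h.cons _)
      · simp only [h1, h2, if_true, if_false]
        exact ih _ _ _ h
    · simp only [h1, if_false]
      exact ih _ _ _ h

theorem cr_perm (g : ℕ → ℝ) (S : Set (Site d)) {F F' : List (Site d)} (h : F.Perm F') :
    cr g S F = cr g S F' := by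
  induction h with
  | nil => rfl
  | cons x _ ih => unfold cr; rw [ih]
  | swap x y l => unfold cr; exact max_left_comm _ _ _
  | trans _ _ ih1 ih2 => exact ih1.trans ih2

theorem en_perm (k : Site d → ℝ) {Z Z' : List (Site d)} (h : Z.Perm Z') : en k Z = en k Z' := by
  unfold en
  have h1 : ∀ p, (Z.map fun q => k (p - q)).sum = (Z'.map fun q => k (p - q)).sum :=
    fun p => (h.map _).sum_eq
  simp only [h1]
  exact (h.map _).sum_eq

theorem en_append_le (k : Site d → ℝ) (hk : ∀ x, 0 ≤ k x) (Z W : List (Site d)) :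
    en k Z ≤ en k (Z ++ W) := by
  unfold en
  rw [List.map_append, List.sum_append]
  have h1 : (Z.map fun p => (Z.map fun q => k (p - q)).sum).sum ≤
      (Z.map fun p => ((Z ++ W).map fun q => k (p - q)).sum).sum := by
    refine List.sum_le_sum fun p _ => ?_
    rw [List.map_append, List.sum_append]
    have : 0 ≤ (W.map fun q => k (p - q)).sum := by
      refine List.sum_nonneg ?_
      intro a ha
      obtain ⟨q, -, rfl⟩ := List.mem_map.1 ha
      exact hk _
    linarith
  have h2 : 0 ≤ (W.map fun p => ((Z ++ W).map fun q => k (p - q)).sum).sum := by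
    refine List.sum_nonneg ?_
    intro a ha
    obtain ⟨p, -, rfl⟩ := List.mem_map.1 ha
    refine List.sum_nonneg ?_
    intro a ha
    obtain ⟨q, -, rfl⟩ := List.mem_map.1 ha
    exact hk _
  linarith

/-! ### The potential -/

theorem dv_pos (hd : 3 ≤ d) {S : Set (Site d)} (hS : S.Finite) {x : Site d} (hx : x ∈ S) :
    1 ≤ dv S x := by
  have hne : {j | ∃ y, y ∉ S ∧ l1 (y - x) = j}.Nonempty := by
    have : Nonempty (Fin d) := ⟨⟨0, by omega⟩⟩
    have : Infinite (Site d) := Pi.infinite_of_right
    obtain ⟨y, hy⟩ := hS.infinite_compl.nonempty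
    exact ⟨_, y, hy, rfl⟩
  obtain ⟨y, hy, hj⟩ := Nat.sInf_mem hne
  unfold dv
  rw [Nat.one_le_iff_ne_zero]
  intro h0
  rw [h0] at hj
  apply hy
  have : y - x = 0 := by
    funext i
    unfold l1 at hj
    have := (Finset.sum_eq_zero_iff.1 hj) i (Finset.mem_univ i)
    exact Int.natAbs_eq_zero.1 this
  rw [sub_eq_zero] at this
  rwa [this]

theorem cr_le {g : ℕ → ℝ} {γ : ℝ} (hγ : 0 ≤ γ) (S : Set (Site d)) (F : List (Site d))
    (h : ∀ x ∈ F, g (dv S x) ≤ γ) : cr g S F ≤ γ * F.length := by
  induction F with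
  | nil => simp [cr]
  | cons x F ih =>
    unfold cr
    have h1 := ih fun y hy => h y (List.mem_cons_of_mem _ hy)
    have h2 := h x List.mem_cons_self
    rw [List.length_cons]
    push_cast
    have h3 : 0 ≤ γ * F.length := by positivity
    refine max_le ?_ ?_ <;> nlinarith

theorem VV_nonneg (hd : 3 ≤ d) {ν : PMF ℕ} {k : Site d → ℝ} {l : ℕ} {μ γ w : ℝ} {g : ℕ → ℝ}
    (hP : Par d ν k l μ γ g) (hw : 0 < w) {B : Set (Site d)} {x0 : Site d} {S0 : List (Site d)}
    {e : ES d} (he : EI B w x0 S0 e) : 0 ≤ VV k μ γ w g B x0 S0 e := by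
  unfold VV
  refine div_nonneg ?_ (by positivity)
  have h1 : 0 ≤ μ * (en k (S0 ++ e.M ++ e.F) - en k S0) := by
    refine mul_nonneg hP.mu_pos.le (sub_nonneg.2 ?_)
    rw [List.append_assoc]
    exact en_append_le k hP.k_nn _ _
  have h2 : 0 ≤ ((e.M ++ e.F).map fun y => nsq (y - x0)).sum := by
    refine List.sum_nonneg ?_
    intro a ha
    obtain ⟨q, -, rfl⟩ := List.mem_map.1 ha
    exact nsq_nonneg _
  have h3 : cr g ((e.A : Set (Site d)) ∩ B) e.F ≤ γ * e.F.length := by
    refine cr_le hP.ga_pos.le _ _ fun x hx => hP.g_le _ ?_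
    refine dv_pos hd ((Finset.finite_toSet e.A).inter_of_left B) ?_
    exact ⟨(he.act x hx).1, (he.act x hx).2⟩
  linarith

theorem VV_perm {k : Site d → ℝ} {μ γ w : ℝ} {g : ℕ → ℝ} {B : Set (Site d)} {x0 : Site d}
    {S0 : List (Site d)} {A : Finset (Site d)} {F F' M O : List (Site d)} (h : F.Perm F') :
    VV k μ γ w g B x0 S0 ⟨A, F, M, O⟩ = VV k μ γ w g B x0 S0 ⟨A, F', M, O⟩ := by
  unfold VV
  simp only []
  rw [en_perm k (h.append_left (S0 ++ M)), cr_perm g _ h, h.length_eq,
    ((h.append_left M).map _).sum_eq]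

theorem VV_end {ν : PMF ℕ} {k : Site d → ℝ} {l : ℕ} {μ γ w : ℝ} {g : ℕ → ℝ}
    (hP : Par d ν k l μ γ g) (hw : 0 < w) {B : Set (Site d)} {x0 : Site d} {S0 : List (Site d)}
    {A : Finset (Site d)} {M O : List (Site d)} (he : EI B w x0 S0 ⟨A, [], M, O⟩) :
    (O.length : ℝ) ≤ VV k μ γ w g B x0 S0 ⟨A, [], M, O⟩ := by
  unfold VV
  rw [le_div_iff₀ (by positivity)]
  simp only [List.append_nil, List.length_nil, Nat.cast_zero, mul_zero, cr]
  have h1 : 0 ≤ μ * (en k (S0 ++ M) - en k S0) := by
    refine mul_nonneg hP.mu_pos.le (sub_nonneg.2 ?_)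
    exact en_append_le k hP.k_nn _ _
  have h2 : (O.map fun y => nsq (y - x0)).sum ≤ (M.map fun y => nsq (y - x0)).sum := by
    refine List.Sublist.sum_le_sum (he.out.map _) ?_
    intro a ha
    obtain ⟨q, -, rfl⟩ := List.mem_map.1 ha
    exact nsq_nonneg _
  have h3 : (O.length : ℝ) * w ^ 2 ≤ (O.map fun y => nsq (y - x0)).sum := by
    have hfar := he.far
    simp only [] at hfar
    clear he h2
    induction O with
    | nil => simp
    | cons y O ih =>
      rw [List.map_cons, List.sum_cons, List.length_cons]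
      push_cast
      have h4 := ih fun x hx => hfar x (List.mem_cons_of_mem _ hx)
      have h5 := hfar y List.mem_cons_self
      have h6 : w ^ 2 ≤ nsq (y - x0) := by
        rw [← nrm_sq]
        exact pow_le_pow_left₀ hw.le h5 2
      linarith
  linarith

/-! ### The invariants -/

/-- The ball of the family. -/
def BB (D : Set (Site d)) (w : ℝ) (x0 : Site d) : Set (Site d) := {y | nrm (y - x0) ≤ w} ∩ D

/-- Invariants of the run. -/
structure Inv (D : Set (Site d)) (w : ℝ) (z x0 : Site d) (S0 L : List (Site d)) (e : ES d) :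
    Prop where
  ei : EI (BB D w x0) w x0 S0 e
  nz : z ∉ e.A
  oA : ∀ y ∈ e.O, y ∈ e.A ∧ y ∈ D ∧ nrm (y - x0) ≤ w + 1
  lA : ∀ y ∈ L, y ∈ e.A ∧ y ∈ D

theorem Inv_arr {D : Set (Site d)} {w : ℝ} {z x0 x : Site d} {S0 L : List (Site d)} {e : ES d}
    (he : Inv D w z x0 S0 L e) (hx : nrm (x - x0) ≤ w) (hz : w + 2 ≤ nrm (x0 - z)) (u : Dir d) :
    Inv D w z x0 S0 L (arrE D (BB D w x0) (x + uvec u) e) := by
  have h1 : nrm (x + uvec u - x0) ≤ w + 1 := (nrm_step x x0 u).trans (by linarith)
  have hne : z ≠ x + uvec u := by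
    rintro rfl
    rw [nrm_symm] at hz
    linarith
  obtain ⟨⟨a1, a2, a3, a4⟩, b1, b2, b3⟩ := he
  unfold arrE
  split_ifs with c1 c2 c3
  · refine ⟨⟨?_, a2, a3, a4⟩, b1, b2, b3⟩
    intro y hy
    rcases List.mem_cons.1 hy with rfl | hy
    · exact ⟨c1, c2⟩
    · exact a1 y hy
  · refine ⟨⟨a1, ?_, ?_, ?_⟩, b1, ?_, b3⟩
    · intro y hy1 hy2
      rcases a2 y hy1 hy2 with h | h
      · exact Or.inl h
      · exact Or.inr (List.mem_cons_of_mem _ h)
    · exact a3.cons_cons _
    · intro y hy
      rcases List.mem_cons.1 hy with rfl | hy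
      · by_contra h
        exact c2 ⟨(not_le.1 h).le, c3⟩
      · exact a4 y hy
    · intro y hy
      rcases List.mem_cons.1 hy with rfl | hy
      · exact ⟨c1, c3, h1⟩
      · exact b2 y hy
  · refine ⟨⟨a1, ?_, a3.cons _, a4⟩, b1, b2, b3⟩
    intro y hy1 hy2
    rcases a2 y hy1 hy2 with h | h
    · exact Or.inl h
    · exact Or.inr (List.mem_cons_of_mem _ h)
  · refine ⟨⟨?_, ?_, a3.cons _, a4⟩, ?_, ?_, ?_⟩
    · intro y hy
      exact ⟨Finset.mem_insert_of_mem (a1 y hy).1, (a1 y hy).2⟩
    · intro y hy1 hy2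
      rcases Finset.mem_insert.1 hy1 with rfl | hy1
      · exact Or.inr List.mem_cons_self
      · rcases a2 y hy1 hy2 with h | h
        · exact Or.inl h
        · exact Or.inr (List.mem_cons_of_mem _ h)
    · intro h
      rcases Finset.mem_insert.1 h with h | h
      · exact hne h
      · exact b1 h
    · intro y hy
      exact ⟨Finset.mem_insert_of_mem (b2 y hy).1, (b2 y hy).2⟩
    · intro y hy
      exact ⟨Finset.mem_insert_of_mem (b3 y hy).1, (b3 y hy).2⟩

theorem steps_le_stE {D : Set (Site d)} {w : ℝ} {z x0 x : Site d} {S0 L : List (Site d)}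
    (hx : nrm (x - x0) ≤ w) (hz : w + 2 ≤ nrm (x0 - z)) (f : Cf d → ℝ≥0∞) (G : ES d → ℝ≥0∞)
    (hf : ∀ A L L', List.Perm L L' → f (A, L) = f (A, L'))
    (IH : ∀ e : ES d, Inv D w z x0 S0 L e → f (e.A, e.F ++ e.O ++ L) ≤ G e) (m : ℕ) :
    ∀ e : ES d, Inv D w z x0 S0 L e →
      steps D x m f (e.A, e.F ++ e.O ++ L) ≤ stE D (BB D w x0) x m G e := by
  induction m with
  | zero => exact IH
  | succ m ih =>
    intro e he
    unfold steps stE
    refine avg_mono fun u => ?_
    have h1 := Inv_arr he hx hz u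
    refine le_of_eq_of_le ?_ (ih _ h1)
    have hp := steps_perm D x f hf m
    unfold arr arrE
    simp only []
    by_cases c1 : x + uvec u ∈ e.A
    · by_cases c2 : x + uvec u ∈ BB D w x0
      · have c3 : x + uvec u ∈ D := c2.2
        simp only [c1, c2, c3, if_true]
        rfl
      · by_cases c3 : x + uvec u ∈ D
        · simp only [c1, c2, c3, if_true, if_false]
          refine hp _ _ _ ?_
          rw [List.append_assoc, List.append_assoc]
          exact (List.perm_middle (l₁ := e.F)).symm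
        · simp only [c1, c2, c3, if_true, if_false]
    · simp only [c1, if_false]

/-! ### Levels -/

theorem lev_far {z : Site d} {w : ℝ} (hw : 1 ≤ w) {J : ℕ} {x : Site d}
    (h : lev z w J x + 2 ≤ J) : w + 2 ≤ nrm (x - z) := by
  by_contra hc
  rw [not_le] at hc
  have h1 : J - 1 ≤ lev z w J x := by
    unfold lev
    refine Nat.le_floor ?_
    rw [le_div_iff₀ (by linarith), Nat.cast_sub (by omega)]
    push_cast
    nlinarith
  omega

theorem lev_le {z : Site d} {w : ℝ} (hw : 1 ≤ w) {J : ℕ} {x y : Site d}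
    (h : nrm (y - x) ≤ w + 2) : lev z w J y ≤ lev z w J x + 1 := by
  have h1 : (J * (w + 2) - nrm (y - z)) / (w + 2) ≤ (J * (w + 2) - nrm (x - z)) / (w + 2) + 1 := by
    rw [div_le_iff₀ (by linarith), add_mul, div_mul_cancel₀ _ (by linarith)]
    have := nrm_tri x y z
    rw [nrm_symm x y] at this
    linarith
  have h2 : lev z w J y < lev z w J x + 2 := by
    unfold lev
    rw [Nat.floor_lt' (by omega)]
    have := Nat.lt_floor_add_one ((J * (w + 2) - nrm (x - z)) / (w + 2))
    push_cast
    linarith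
  omega

theorem lev_near {z : Site d} {w : ℝ} (hw : 1 ≤ w) {J : ℕ} {x : Site d}
    (h : 1 ≤ lev z w J x) : nrm (x - z) ≤ J * (w + 2) - (w + 2) := by
  unfold lev at h
  have h1 : (1 : ℝ) ≤ (J * (w + 2) - nrm (x - z)) / (w + 2) := by
    have := (Nat.le_floor_iff' (by omega)).1 h
    simpa using this
  rw [le_div_iff₀ (by linarith)] at h1
  linarith

theorem wt_nonneg (z : Site d) (w : ℝ) (J : ℕ) (x : Site d) : 0 ≤ wt z w J x := by
  unfold wt
  positivity

theorem wt_le {z : Site d} {w : ℝ} {J : ℕ} {x : Site d} {i : ℕ} (h : lev z w J x ≤ i + 1) :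
    wt z w J x ≤ 2 ^ i / 2 ^ (J - 2) := by
  unfold wt
  refine div_le_div_of_nonneg_right ?_ (by positivity)
  exact pow_le_pow_right₀ (by norm_num) (by omega)

theorem sum_wt_nonneg (z : Site d) (w : ℝ) (J : ℕ) (L : List (Site d)) :
    0 ≤ (L.map (wt z w J)).sum := by
  refine List.sum_nonneg ?_
  intro a ha
  obtain ⟨q, -, rfl⟩ := List.mem_map.1 ha
  exact wt_nonneg _ _ _ _

theorem sum_le_length (f : Site d → ℝ) (c : ℝ) (L : List (Site d)) (h : ∀ x ∈ L, f x ≤ c) :
    (L.map f).sum ≤ L.length * c := by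
  induction L with
  | nil => simp
  | cons x L ih =>
    rw [List.map_cons, List.sum_cons, List.length_cons]
    push_cast
    have h1 := ih fun y hy => h y (List.mem_cons_of_mem _ hy)
    have h2 := h x List.mem_cons_self
    linarith

/-- Choice of the best particle. -/
theorem exists_best (S : Set (Site d)) (F : List (Site d)) (hF : F ≠ []) :
    ∃ x F', F.Perm (x :: F') ∧ ∀ y ∈ F', dv S x ≤ dv S y := by
  induction F with
  | nil => exact absurd rfl hF
  | cons y F ih =>
    by_cases h : F = []
    · subst h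
      exact ⟨y, [], List.Perm.refl _, by simp⟩
    · obtain ⟨x, F', h1, h2⟩ := ih h
      by_cases h3 : dv S y ≤ dv S x
      · refine ⟨y, F, List.Perm.refl _, ?_⟩
        intro v hv
        rcases List.mem_cons.1 (h1.mem_iff.1 hv) with rfl | hv
        · exact h3
        · exact h3.trans (h2 v hv)
      · refine ⟨x, y :: F', (h1.cons y).trans (List.Perm.swap _ _ _), ?_⟩
        intro v hv
        rcases List.mem_cons.1 hv with rfl | hv
        · exact (not_le.1 h3).le
        · exact h2 v hv

theorem Ph_le_one (hBAS : S_BAS) (hd : 3 ≤ d) (ν : PMF ℕ) (D : Set (Site d))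
    (G : Finset (Site d) → Prop) (n : ℕ) (p : Cf d) : Ph ν D (ind G) n p ≤ 1 := by
  obtain ⟨h1, -, -, -, h5, -, -⟩ := hBAS d ν hd
  refine (h1 D _ (fun _ => 1) ?_ n p).trans (h5 D n p)
  intro A
  unfold ind
  split_ifs <;> simp

theorem Ph_zero_of (hBAS : S_BAS) (hd : 3 ≤ d) (ν : PMF ℕ) (D : Set (Site d))
    (f : Finset (Site d) → ℝ≥0∞) (n : ℕ) (A : Finset (Site d)) (L : List (Site d))
    (hf : ∀ B, A ⊆ B → f B = 0) : Ph ν D f n (A, L) = 0 := by
  obtain ⟨-, -, h3, -, -, h6, -⟩ := hBAS d ν hd
  rw [h3, ENNReal.tsum_eq_zero]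
  intro B
  by_cases hB : A ⊆ B
  · rw [hf B hB, zero_mul]
  · rw [h6 D n A L B hB, mul_zero]

theorem ind_zero {α : Type} {P : α → Prop} {a : α} (h : ¬ P a) : ind P a = 0 := by
  unfold ind
  rw [if_neg h]

/-- Case of a particle outside of the levels. -/
theorem steps_out (hd : 3 ≤ d) {D : Set (Site d)} {z : Site d} {w : ℝ} (hw : 1 ≤ w) {J : ℕ}
    (hJ : 2 ≤ J) {x0 : Site d} (hx0 : lev z w J x0 = 0) (f : Cf d → ℝ≥0∞)
    (IH : ∀ A L, z ∉ A → (∀ x ∈ L, x ∈ A ∧ x ∈ D) →
      f (A, L) ≤ ENNReal.ofReal ((L.map (wt z w J)).sum)) (m : ℕ) :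
    ∀ A L, z ∉ A → (∀ x ∈ L, x ∈ A ∧ x ∈ D) →
      steps D x0 m f (A, L) ≤ m * ENNReal.ofReal (1 / 2 ^ (J - 2)) +
        ENNReal.ofReal ((L.map (wt z w J)).sum) := by
  induction m with
  | zero =>
    intro A L h1 h2
    show f (A, L) ≤ _
    simpa using IH A L h1 h2
  | succ m ih =>
    intro A L h1 h2
    unfold steps
    have hfar : w + 2 ≤ nrm (x0 - z) := lev_far (z := z) (J := J) hw (by omega)
    rw [← avg_const hd (((m + 1 : ℕ) : ℝ≥0∞) * ENNReal.ofReal (1 / 2 ^ (J - 2)) +
        ENNReal.ofReal ((L.map (wt z w J)).sum))]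
    refine avg_mono fun u => ?_
    have hne : z ≠ x0 + uvec u := by
      rintro h
      have h3 : nrm (x0 - z) = 1 := by
        rw [h, sub_add_cancel_left, nrm_neg, nrm_uvec]
      linarith
    have hwt : wt z w J (x0 + uvec u) ≤ 1 / 2 ^ (J - 2) := by
      have h4 : lev z w J (x0 + uvec u) ≤ 0 + 1 := by
        rw [← hx0]
        refine lev_le hw ?_
        rw [add_sub_cancel_left, nrm_uvec]
        linarith
      simpa using wt_le h4
    unfold arr
    simp only []
    by_cases c1 : x0 + uvec u ∈ A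
    · by_cases c3 : x0 + uvec u ∈ D
      · simp only [c1, c3, if_true]
        refine (ih A ((x0 + uvec u) :: L) h1 ?_).trans ?_
        · intro y hy
          rcases List.mem_cons.1 hy with rfl | hy
          · exact ⟨c1, c3⟩
          · exact h2 y hy
        · rw [List.map_cons, List.sum_cons,
            ENNReal.ofReal_add (wt_nonneg _ _ _ _) (sum_wt_nonneg _ _ _ _), ← add_assoc]
          refine add_le_add_left ?_ _
          push_cast
          rw [add_mul, one_mul]
          exact add_le_add_right (ENNReal.ofReal_le_ofReal hwt) _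
      · simp only [c1, c3, if_true, if_false]
        refine (ih A L h1 h2).trans ?_
        refine add_le_add_left ?_ _
        push_cast
        rw [add_mul]
        exact le_self_add
    · simp only [c1, if_false]
      refine (ih _ L ?_ ?_).trans ?_
      · intro h
        rcases Finset.mem_insert.1 h with h | h
        · exact hne h
        · exact h1 h
      · intro y hy
        exact ⟨Finset.mem_insert_of_mem (h2 y hy).1, (h2 y hy).2⟩
      · refine add_le_add_left ?_ _
        push_cast
        rw [add_mul]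
        exact le_self_add

theorem en_single (k : Site d → ℝ) (hk : ∀ x, k (-x) = k x) (Z : List (Site d)) (x : Site d) :
    en k (Z ++ [x]) = en k Z + (k 0 + 2 * (Z.map fun y => k (x - y)).sum) := by
  unfold en
  have h1 : ∀ p, ((Z ++ [x]).map fun q => k (p - q)).sum =
      (Z.map fun q => k (p - q)).sum + k (p - x) := by
    intro p
    simp
  simp only [h1]
  rw [List.map_append, List.sum_append, List.sum_map_add]
  have h2 : (Z.map fun p => k (p - x)) = Z.map fun y => k (x - y) := by
    refine List.map_congr_left fun y _ => ?_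
    rw [← hk, neg_sub]
  rw [h2]
  simp
  ring

theorem main (hBAS : S_BAS) (hSYM : S_SYM) (hFAM : C_FAM) (hd : 3 ≤ d) (ν : PMF ℕ)
    (k : Site d → ℝ) (l : ℕ) (μ γ w c : ℝ) (g : ℕ → ℝ) (D : Set (Site d)) (z : Site d) (J : ℕ)
    (hν : ConditionH ν) (hP : Par d ν k l μ γ g) (hw : 1 ≤ w) (hJ : 2 ≤ J)
    (hS : Sml k μ γ w c) (n : ℕ) :
    (∀ A L, z ∉ A → (∀ x ∈ L, x ∈ A ∧ x ∈ D) →
      Ph ν D (ind (Thin z (J * (w + 2)) c)) n (A, L) ≤
        ENNReal.ofReal ((L.map (wt z w J)).sum)) ∧
    (∀ (x0 : Site d) (S0 L : List (Site d)) (e : ES d), 1 ≤ lev z w J x0 →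
      lev z w J x0 + 2 ≤ J → Inv D w z x0 S0 L e →
      Ph ν D (ind (Thin z (J * (w + 2)) c)) n (e.A, e.F ++ e.O ++ L) ≤
        ENNReal.ofReal (2 ^ (lev z w J x0) / 2 ^ (J - 2) * VV k μ γ w g (BB D w x0) x0 S0 e +
          (L.map (wt z w J)).sum)) := by
  have hw0 : 0 < w := by linarith
  have hperm : ∀ n A L L', List.Perm L L' → Ph ν D (ind (Thin z (J * (w + 2)) c)) n (A, L) =
      Ph ν D (ind (Thin z (J * (w + 2)) c)) n (A, L') :=
    fun n A L L' h => hSYM d ν D _ n A L L' hd h
  -- the case without active particles of the family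
  have hnil : ∀ n, (∀ A L, z ∉ A → (∀ x ∈ L, x ∈ A ∧ x ∈ D) →
      Ph ν D (ind (Thin z (J * (w + 2)) c)) n (A, L) ≤
        ENNReal.ofReal ((L.map (wt z w J)).sum)) →
      ∀ (x0 : Site d) (S0 L : List (Site d)) (A : Finset (Site d)) (M O : List (Site d)),
      lev z w J x0 + 2 ≤ J → Inv D w z x0 S0 L ⟨A, [], M, O⟩ →
      Ph ν D (ind (Thin z (J * (w + 2)) c)) n (A, [] ++ O ++ L) ≤
        ENNReal.ofReal (2 ^ (lev z w J x0) / 2 ^ (J - 2) *
          VV k μ γ w g (BB D w x0) x0 S0 ⟨A, [], M, O⟩ + (L.map (wt z w J)).sum) := by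
    intro n hC x0 S0 L A M O hJ2 he
    have h1 := hC A (O ++ L) he.nz (by
      intro x hx
      rcases List.mem_append.1 hx with hx | hx
      · exact ⟨(he.oA x hx).1, (he.oA x hx).2.1⟩
      · exact he.lA x hx)
    rw [List.nil_append]
    refine h1.trans (ENNReal.ofReal_le_ofReal ?_)
    rw [List.map_append, List.sum_append]
    refine add_le_add_left ?_ _
    have h2 := VV_end hP hw0 he.ei
    have h3 := sum_le_length (wt z w J) (2 ^ (lev z w J x0) / 2 ^ (J - 2)) O fun y hy =>
      wt_le (lev_le hw ((he.oA y hy).2.2.trans (by linarith)))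
    refine h3.trans ?_
    rw [mul_comm]
    exact mul_le_mul_of_nonneg_left h2 (by positivity)
  induction n with
  | zero =>
    have hC : ∀ A L, z ∉ A → (∀ x ∈ L, x ∈ A ∧ x ∈ D) →
        Ph ν D (ind (Thin z (J * (w + 2)) c)) 0 (A, L) ≤
          ENNReal.ofReal ((L.map (wt z w J)).sum) := by
      intro A L h1 h2
      rcases L with _ | ⟨x, L⟩
      · rw [Ph_nil, ind_zero fun h => h1 h.1]
        exact bot_le
      · rw [Ph_zero_cons]
        exact bot_le
    refine ⟨hC, ?_⟩
    intro x0 S0 L e h1 h2 he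
    obtain ⟨A, F, M, O⟩ := e
    rcases F with _ | ⟨x, F⟩
    · exact hnil 0 hC x0 S0 L A M O h2 he
    · rw [show ((⟨A, x :: F, M, O⟩ : ES d).A, (⟨A, x :: F, M, O⟩ : ES d).F ++
        (⟨A, x :: F, M, O⟩ : ES d).O ++ L) = (A, x :: (F ++ O ++ L)) from rfl, Ph_zero_cons]
      exact bot_le
  | succ n ihn =>
    obtain ⟨ihC, ihF⟩ := ihn
    -- nonempty families
    have hF' : ∀ (x0 : Site d) (S0 L : List (Site d)) (e : ES d), 1 ≤ lev z w J x0 →
        lev z w J x0 + 2 ≤ J → Inv D w z x0 S0 L e → e.F ≠ [] →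
        Ph ν D (ind (Thin z (J * (w + 2)) c)) (n + 1) (e.A, e.F ++ e.O ++ L) ≤
          ENNReal.ofReal (2 ^ (lev z w J x0) / 2 ^ (J - 2) *
            VV k μ γ w g (BB D w x0) x0 S0 e + (L.map (wt z w J)).sum) := by
      intro x0 S0 L e h1 h2 he hne
      obtain ⟨A, F, M, O⟩ := e
      simp only [] at hne ⊢
      obtain ⟨x, F', hp, hbest⟩ := exists_best ((A : Set (Site d)) ∩ BB D w x0) F hne
      have hfar := lev_far hw h2
      obtain ⟨⟨a1, a2, a3, a4⟩, b1, b2, b3⟩ := he
      simp only [] at a1 a2 a3 a4 b1 b2 b3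
      have hxF : x ∈ F := hp.mem_iff.2 List.mem_cons_self
      have hx := a1 x hxF
      have he' : Inv D w z x0 S0 L ⟨A, F', M, O⟩ := by
        refine ⟨⟨?_, a2, a3, a4⟩, b1, b2, b3⟩
        intro y hy
        exact a1 y (hp.mem_iff.2 (List.mem_cons_of_mem _ hy))
      have he'' : EI (BB D w x0) w x0 S0 ⟨A, x :: F', M, O⟩ := by
        refine ⟨?_, a2, a3, a4⟩
        intro y hy
        exact a1 y (hp.mem_iff.2 hy)
      have hVV : 0 ≤ VV k μ γ w g (BB D w x0) x0 S0 ⟨A, x :: F', M, O⟩ :=
        VV_nonneg hd hP hw0 he''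
      have h5 : (F ++ O ++ L).Perm (x :: (F' ++ O ++ L)) := by
        have := (hp.append_right O).append_right L
        simpa using this
      rw [hperm (n + 1) A _ _ h5, Ph_succ_cons]
      have h6 : top ν D x (Ph ν D (ind (Thin z (J * (w + 2)) c)) n) (A, F' ++ O ++ L) ≤
          topE ν D (BB D w x0) x (fun e =>
            ENNReal.ofReal (2 ^ (lev z w J x0) / 2 ^ (J - 2)) *
              ENNReal.ofReal (VV k μ γ w g (BB D w x0) x0 S0 e) +
                ENNReal.ofReal ((L.map (wt z w J)).sum)) ⟨A, F', M, O⟩ := by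
        unfold top topE
        refine ENNReal.tsum_le_tsum fun m => mul_le_mul_right ?_ _
        refine steps_le_stE hx.2.1 hfar _ _ (hperm n) ?_ m _ he'
        intro e he
        refine (ihF x0 S0 L e h1 h2 he).trans ?_
        refine ENNReal.ofReal_add_le.trans ?_
        rw [ENNReal.ofReal_mul (by positivity)]
      refine h6.trans ?_
      rw [topE_lin hd]
      have h7 := hFAM d ν k l μ γ w g D (BB D w x0) x0 x S0 A F' M O hd hν hP hw0 he'' (by
        intro y hy
        exact hbest y hy)
      refine (add_le_add_left (mul_le_mul_right h7 _) _).trans ?_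
      rw [← ENNReal.ofReal_mul (by positivity), ← ENNReal.ofReal_add
        (mul_nonneg (by positivity) hVV) (sum_wt_nonneg _ _ _ _), VV_perm hp]
    have hC : ∀ A L, z ∉ A → (∀ x ∈ L, x ∈ A ∧ x ∈ D) →
        Ph ν D (ind (Thin z (J * (w + 2)) c)) (n + 1) (A, L) ≤
          ENNReal.ofReal ((L.map (wt z w J)).sum) := by
      intro A L h1 h2
      rcases L with _ | ⟨x0, L⟩
      · rw [Ph_nil, ind_zero fun h => h1 h.1]
        exact bot_le
      · have hx0 := h2 x0 List.mem_cons_self
        have h2' : ∀ x ∈ L, x ∈ A ∧ x ∈ D := fun x hx => h2 x (List.mem_cons_of_mem _ hx)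
        by_cases hi1 : J ≤ lev z w J x0 + 1
        · -- deep particle
          refine (Ph_le_one hBAS hd ν D _ _ _).trans ?_
          rw [← ENNReal.ofReal_one]
          refine ENNReal.ofReal_le_ofReal ?_
          rw [List.map_cons, List.sum_cons]
          have h3 : 1 ≤ wt z w J x0 := by
            unfold wt
            rw [le_div_iff₀ (by positivity), one_mul]
            exact pow_le_pow_right₀ (by norm_num) (by omega)
          have := sum_wt_nonneg z w J L
          linarith
        · by_cases hi0 : lev z w J x0 = 0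
          · -- outside of the levels
            rw [Ph_succ_cons]
            unfold top
            have h3 : ∀ m : ℕ, ν m * steps D x0 m
                (Ph ν D (ind (Thin z (J * (w + 2)) c)) n) (A, L) ≤
                ν m * m * ENNReal.ofReal (1 / 2 ^ (J - 2)) +
                  ν m * ENNReal.ofReal ((L.map (wt z w J)).sum) := by
              intro m
              rw [mul_assoc, ← mul_add]
              exact mul_le_mul_right (steps_out hd hw hJ hi0 _ ihC m A L h1 h2') _
            refine (ENNReal.tsum_le_tsum h3).trans ?_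
            rw [ENNReal.tsum_add, ENNReal.tsum_mul_right, ENNReal.tsum_mul_right, mean_one ν hν,
              ν.tsum_coe, one_mul, one_mul, ← ENNReal.ofReal_add (by positivity)
                (sum_wt_nonneg _ _ _ _)]
            refine ENNReal.ofReal_le_ofReal ?_
            rw [List.map_cons, List.sum_cons]
            have h4 : wt z w J x0 = 1 / 2 ^ (J - 2) := by
              unfold wt
              rw [hi0]
              simp
            rw [h4]
          · -- a family is started
            classical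
            set Sf : Finset (Site d) := A.filter fun y => y ∈ BB D w x0 with hSf
            have hmemSf : ∀ y, y ∈ Sf ↔ y ∈ A ∧ y ∈ BB D w x0 := by
              intro y
              rw [hSf, Finset.mem_filter]
            by_cases hcard : (Sf.card : ℝ) ≤ c
            · have hE : Inv D w z x0 Sf.toList L ⟨A, [x0], [], []⟩ := by
                refine ⟨⟨?_, ?_, ?_, ?_⟩, h1, ?_, h2'⟩
                · intro x hx
                  rw [List.mem_singleton] at hx
                  subst hx
                  refine ⟨hx0.1, ?_, hx0.2⟩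
                  show nrm (x - x) ≤ w
                  rw [sub_self, nrm_zero]
                  exact hw0.le
                · intro x hx1 hx2
                  exact Or.inl (Finset.mem_toList.2 ((hmemSf x).2 ⟨hx1, hx2⟩))
                · exact List.Sublist.refl _
                · intro x hx
                  simp at hx
                · intro x hx
                  simp at hx
              have h3 := hF' x0 Sf.toList L ⟨A, [x0], [], []⟩ (by omega) (by omega) hE (by simp)
              refine h3.trans (ENNReal.ofReal_le_ofReal ?_)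
              rw [List.map_cons, List.sum_cons]
              refine add_le_add_left ?_ _
              have h4 : VV k μ γ w g (BB D w x0) x0 Sf.toList ⟨A, [x0], [], []⟩ ≤ 1 / 2 := by
                unfold VV
                simp only [List.append_nil, List.nil_append, List.map_cons, List.map_nil,
                  List.sum_cons, List.sum_nil, List.length_singleton, Nat.cast_one, mul_one,
                  add_zero, sub_self]
                rw [en_single k hP.k_symm, div_le_iff₀ (by positivity)]
                have h5 := hS x0 Sf.toList (Finset.nodup_toList _) (by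
                  rw [Finset.length_toList]; exact hcard)
                have h6 : 0 ≤ cr g ((A : Set (Site d)) ∩ BB D w x0) [x0] := by
                  unfold cr
                  exact le_max_of_le_left (hP.g_nn _)
                have h7 : nsq (0 : Site d) = 0 := by simp [nsq]
                rw [h7]
                linarith
              have h5 : wt z w J x0 = 2 ^ (lev z w J x0) / 2 ^ (J - 2) * (1 / 2) := by
                unfold wt
                obtain ⟨i, hi⟩ := Nat.exists_eq_succ_of_ne_zero hi0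
                rw [hi, Nat.succ_sub_one, pow_succ]
                ring
              rw [h5]
              exact mul_le_mul_of_nonneg_left h4 (by positivity)
            · rw [Ph_zero_of hBAS hd]
              · exact bot_le
              · intro B hAB
                refine ind_zero ?_
                rintro ⟨-, hB⟩
                apply hcard
                refine le_trans ?_ hB
                rw [← Set.ncard_coe_finset]
                have hfin : {y : Site d | y ∈ B ∧ nrm (y - z) ≤ J * (w + 2)}.Finite :=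
                  (Finset.finite_toSet B).subset fun y hy => hy.1
                have h8 : (Sf : Set (Site d)) ⊆
                    {y : Site d | y ∈ B ∧ nrm (y - z) ≤ J * (w + 2)} := by
                  intro y hy
                  obtain ⟨hy1, hy2, -⟩ := (hmemSf y).1 (Finset.mem_coe.1 hy)
                  refine ⟨hAB hy1, ?_⟩
                  have h9 := lev_near (z := z) hw (J := J) (x := x0) (by omega)
                  have h10 := nrm_tri y x0 z
                  have h11 : nrm (y - x0) ≤ w := hy2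
                  linarith
                exact_mod_cast Set.ncard_le_ncard h8 hfin
    refine ⟨hC, ?_⟩
    intro x0 S0 L e h1 h2 he
    by_cases hne : e.F = []
    · obtain ⟨A, F, M, O⟩ := e
      simp only [] at hne
      subst hne
      exact hnil (n + 1) hC x0 S0 L A M O h2 he
    · exact hF' x0 S0 L e h1 h2 he hne

end LevP

/-- **Part LEV.** -/
theorem t_LEV : S_LEV := by
  intro hBAS hSYM hFAM d ν k l μ γ w c g D z J n A L hd hν hP hw hJ hS hz hL
  exact (LevP.main hBAS hSYM hFAM hd ν k l μ γ w c g D z J hν hP hw hJ hS n).1 A L hz hL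

end Pool.Agent.H45.BD
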