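import Pool.Agent.H3.BI.Stm2

/-!
# Project BD, part PO
-/

set_option autoImplicit false

open scoped ENNReal
open Finset MeasureTheory

namespace Pool.Agent.H45.BD

open Pool.Agent.H3.BI

namespace POP

variable {d : ℕ}

/-! ### Linearity of the functionals -/

section lin

variable (hBAS : S_BAS) (hd : 3 ≤ d) (ν : PMF ℕ)

include hBAS hd

theorem KD_le_of {D : Set (Site d)} {A : Finset (Site d)} {f g : Finset (Site d) → ℝ≥0∞}
    (h : ∀ B, KD ν D (ind fun C => C = B) A ≠ 0 → f B ≤ g B) : KD ν D f A ≤ KD ν D g A := by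
  obtain ⟨-, -, -, h4, -, -, -⟩ := hBAS d ν hd
  rw [h4 D f A, h4 D g A]
  refine ENNReal.tsum_le_tsum fun B => ?_
  by_cases hB : KD ν D (ind fun C => C = B) A = 0
  · rw [hB, mul_zero, mul_zero]
  · exact mul_le_mul_left (h B hB) _

theorem KD_add (D : Set (Site d)) (A : Finset (Site d)) (f g : Finset (Site d) → ℝ≥0∞) :
    KD ν D (fun B => f B + g B) A = KD ν D f A + KD ν D g A := by
  obtain ⟨-, -, -, h4, -, -, -⟩ := hBAS d ν hd
  rw [h4 D _ A, h4 D f A, h4 D g A, ← ENNReal.tsum_add]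
  exact tsum_congr fun B => add_mul _ _ _

theorem KD_mul (D : Set (Site d)) (A : Finset (Site d)) (c : ℝ≥0∞)
    (f : Finset (Site d) → ℝ≥0∞) : KD ν D (fun B => c * f B) A = c * KD ν D f A := by
  obtain ⟨-, -, -, h4, -, -, -⟩ := hBAS d ν hd
  rw [h4 D _ A, h4 D f A, ← ENNReal.tsum_mul_left]
  exact tsum_congr fun B => mul_assoc _ _ _

theorem KD_one_le (D : Set (Site d)) (A : Finset (Site d)) : KD ν D (fun _ => 1) A ≤ 1 := by
  obtain ⟨-, -, -, -, h5, -, -⟩ := hBAS d ν hd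
  exact iSup_le fun n => h5 D n _

theorem KD_le_one {D : Set (Site d)} {A : Finset (Site d)} {f : Finset (Site d) → ℝ≥0∞}
    (h : ∀ B, f B ≤ 1) : KD ν D f A ≤ 1 :=
  (KD_le_of hBAS hd ν fun B _ => h B).trans (KD_one_le hBAS hd ν D A)

theorem Eg_mono (D : ℕ → Set (Site d)) (n : ℕ) {f g : Finset (Site d) → ℝ≥0∞}
    (h : ∀ B, f B ≤ g B) : Eg ν D n f ≤ Eg ν D n g := by
  obtain ⟨-, -, -, -, -, -, h7⟩ := hBAS d ν hd
  rw [h7 D f n, h7 D g n]
  exact ENNReal.tsum_le_tsum fun B => mul_le_mul_left (h B) _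

theorem Eg_add (D : ℕ → Set (Site d)) (n : ℕ) (f g : Finset (Site d) → ℝ≥0∞) :
    Eg ν D n (fun B => f B + g B) = Eg ν D n f + Eg ν D n g := by
  obtain ⟨-, -, -, -, -, -, h7⟩ := hBAS d ν hd
  rw [h7 D _ n, h7 D f n, h7 D g n, ← ENNReal.tsum_add]
  exact tsum_congr fun B => add_mul _ _ _

theorem Eg_mul (D : ℕ → Set (Site d)) (n : ℕ) (c : ℝ≥0∞) (f : Finset (Site d) → ℝ≥0∞) :
    Eg ν D n (fun B => c * f B) = c * Eg ν D n f := by
  obtain ⟨-, -, -, -, -, -, h7⟩ := hBAS d ν hd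
  rw [h7 D _ n, h7 D f n, ← ENNReal.tsum_mul_left]
  exact tsum_congr fun B => mul_assoc _ _ _

theorem Eg_zero (D : ℕ → Set (Site d)) (n : ℕ) : Eg ν D n (fun _ => 0) = 0 := by
  have := Eg_mul hBAS hd ν D n 0 (fun _ => 0)
  simpa using this

theorem Eg_sum (D : ℕ → Set (Site d)) (n : ℕ) (S : Finset (Site d))
    (f : Site d → Finset (Site d) → ℝ≥0∞) :
    Eg ν D n (fun B => ∑ y ∈ S, f y B) = ∑ y ∈ S, Eg ν D n (f y) := by
  classical
  induction S using Finset.induction_on with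
  | empty => simpa using Eg_zero hBAS hd ν D n
  | insert y S hy ih =>
    simp only [Finset.sum_insert hy]
    rw [Eg_add hBAS hd ν D n, ih]

theorem Eg_one_le (D : ℕ → Set (Site d)) (n : ℕ) : Eg ν D n (fun _ => 1) ≤ 1 := by
  induction n with
  | zero => exact le_refl _
  | succ n ih =>
    refine le_trans ?_ ih
    refine Eg_mono hBAS hd ν D n fun A => ?_
    refine KD_le_one hBAS hd ν fun B => ?_
    unfold ind
    split_ifs <;> simp

theorem Eg_const_le (D : ℕ → Set (Site d)) (n : ℕ) (c : ℝ≥0∞) : Eg ν D n (fun _ => c) ≤ c := by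
  have h := Eg_mul hBAS hd ν D n c (fun _ => 1)
  simp only [mul_one] at h
  rw [h]
  exact mul_le_of_le_one_right' (Eg_one_le hBAS hd ν D n)

end lin

/-! ### Radii -/

theorem rad_pow (hd : 3 ≤ d) (hom : 0 < om d) (t : ℕ) : om d * rad d t ^ d = t := by
  unfold rad
  rw [← Real.rpow_natCast, ← Real.rpow_mul (by positivity), one_div,
    inv_mul_cancel₀ (by positivity), Real.rpow_one]
  field_simp

theorem rad_nonneg (hom : 0 < om d) (t : ℕ) : 0 ≤ rad d t := by
  unfold rad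
  positivity

theorem rad_mono (hom : 0 < om d) {s t : ℕ} (h : s ≤ t) : rad d s ≤ rad d t := by
  unfold rad
  refine Real.rpow_le_rpow (by positivity) ?_ (by positivity)
  exact div_le_div_of_nonneg_right (by exact_mod_cast h) hom.le

theorem pow_add_le {a c : ℝ} (ha : 0 ≤ a) (hc : 0 ≤ c) {k : ℕ} (hk : 1 ≤ k) :
    a ^ k + c ^ k ≤ (a + c) ^ k := by
  induction k, hk using Nat.le_induction with
  | base => simp
  | succ k _ ih =>
    have h1 : (a + c) ^ (k + 1) = (a + c) ^ k * (a + c) := pow_succ _ _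
    rw [h1]
    have h2 : (a ^ k + c ^ k) * (a + c) ≤ (a + c) ^ k * (a + c) :=
      mul_le_mul_of_nonneg_right ih (by positivity)
    refine le_trans ?_ h2
    rw [pow_succ, pow_succ]
    have h3 : 0 ≤ a ^ k * c := by positivity
    have h4 : 0 ≤ c ^ k * a := by positivity
    nlinarith

theorem pow_sub_le {a b : ℝ} (hb : 0 ≤ b) (hab : b ≤ a) (k : ℕ) :
    a ^ (k + 1) - b ^ (k + 1) ≤ (k + 1) * a ^ k * (a - b) := by
  have ha : 0 ≤ a := hb.trans hab
  induction k with
  | zero => simp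
  | succ k ih =>
    have h1 : a ^ (k + 2) - b ^ (k + 2) = a * (a ^ (k + 1) - b ^ (k + 1)) +
        b ^ (k + 1) * (a - b) := by ring
    rw [h1]
    have h2 := mul_le_mul_of_nonneg_left ih ha
    have h3 : b ^ (k + 1) * (a - b) ≤ a ^ (k + 1) * (a - b) :=
      mul_le_mul_of_nonneg_right (pow_le_pow_left₀ hb hab _) (by linarith)
    push_cast
    have h4 : a * ((k + 1) * a ^ k * (a - b)) = (k + 1) * a ^ (k + 1) * (a - b) := by ring
    nlinarith

theorem rad_succ (hd : 3 ≤ d) (hom : 0 < om d) (t : ℕ) :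
    rad d (t + 1) ≤ rad d t + rad d 1 := by
  have h1 := rad_pow hd hom (t + 1)
  have h2 := rad_pow hd hom t
  have h3 := rad_pow hd hom 1
  have h4 := pow_add_le (rad_nonneg hom t) (rad_nonneg hom 1) (k := d) (by omega)
  refine le_of_pow_le_pow_left₀ (n := d) (by omega)
    (add_nonneg (rad_nonneg hom t) (rad_nonneg hom 1)) ?_
  refine le_trans ?_ h4
  refine le_of_mul_le_mul_left ?_ hom
  rw [mul_add, h1, h2, h3]
  push_cast
  rfl

/-! ### Neighbours -/

theorem PP_mono {f g : Site d → ℝ} {x : Site d} (h : ∀ e : Dir d, f (x + uvec e) ≤ g (x + uvec e)) :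
    PP f x ≤ PP g x := by
  unfold PP
  refine div_le_div_of_nonneg_right (Finset.sum_le_sum fun e _ => h e) (by positivity)

theorem PP_nonneg {f : Site d → ℝ} {x : Site d} (h : ∀ e : Dir d, 0 ≤ f (x + uvec e)) :
    0 ≤ PP f x := by
  unfold PP
  exact div_nonneg (Finset.sum_nonneg fun e _ => h e) (by positivity)

theorem PP_const (hd : 3 ≤ d) (c : ℝ) (x : Site d) : PP (fun _ => c) x = c := by
  unfold PP
  rw [Finset.sum_const, nsmul_eq_mul, Finset.card_univ, Fintype.card_prod, Fintype.card_fin,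
    Fintype.card_bool]
  have : (d : ℝ) ≠ 0 := by
    have : 0 < d := by omega
    positivity
  push_cast
  field_simp

theorem PP_le_const (hd : 3 ≤ d) {f : Site d → ℝ} {x : Site d} {c : ℝ}
    (h : ∀ e : Dir d, f (x + uvec e) ≤ c) : PP f x ≤ c := by
  have h1 : PP f x ≤ PP (fun _ => c) x := PP_mono h
  rwa [PP_const hd] at h1

theorem PP_lin (f g : Site d → ℝ) (a b : ℝ) (x : Site d) :
    PP (fun y => a * f y + b * g y) x = a * PP f x + b * PP g x := by
  unfold PP
  rw [Finset.sum_add_distrib, ← Finset.mul_sum, ← Finset.mul_sum]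
  ring

/-! ### Norms -/

theorem nrm_eq (x : Site d) : nrm x = ‖(WithLp.toLp 2 (fun i => (x i : ℝ)) : EuclideanSpace ℝ (Fin d))‖ := by
  rw [EuclideanSpace.norm_eq]
  unfold nrm nsq
  congr 1
  refine Finset.sum_congr rfl fun i _ => ?_
  simp

theorem nrm_add_le (x y : Site d) : nrm (x + y) ≤ nrm x + nrm y := by
  rw [nrm_eq, nrm_eq, nrm_eq]
  refine le_of_eq_of_le ?_ (norm_add_le _ _)
  congr 1
  ext i
  simp

theorem nrm_neg (x : Site d) : nrm (-x) = nrm x := by
  unfold nrm nsq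
  simp

theorem nrm_sub_le (x y : Site d) : nrm (x - y) ≤ nrm x + nrm y := by
  rw [sub_eq_add_neg]
  exact (nrm_add_le _ _).trans (by rw [nrm_neg])

theorem nrm_uvec (e : Dir d) : nrm (uvec e) = 1 := by
  unfold nrm nsq uvec
  rw [Finset.sum_eq_single e.1]
  · rw [Pi.single_eq_same]
    split_ifs <;> simp
  · intro j _ hj
    rw [Pi.single_eq_of_ne hj]
    simp
  · intro h
    exact absurd (Finset.mem_univ _) h

theorem nrm_zero : nrm (0 : Site d) = 0 := by
  unfold nrm nsq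
  simp

theorem nrm_step0 (x : Site d) (e : Dir d) : nrm (x + uvec e) ≤ nrm x + 1 := by
  have := nrm_add_le x (uvec e)
  rwa [nrm_uvec] at this

theorem nrm_step (x a : Site d) (e : Dir d) : nrm (x + uvec e - a) ≤ nrm (x - a) + 1 := by
  have := nrm_add_le (x - a) (uvec e)
  rw [nrm_uvec] at this
  rwa [show x + uvec e - a = x - a + uvec e by abel]

theorem nrm_step' (x a : Site d) (e : Dir d) : nrm (x - a) ≤ nrm (x + uvec e - a) + 1 := by
  have := nrm_sub_le (x + uvec e - a) (uvec e)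
  rw [nrm_uvec] at this
  rwa [show x + uvec e - a - uvec e = x - a by abel] at this

theorem nrm_symm (x y : Site d) : nrm (x - y) = nrm (y - x) := by
  rw [← nrm_neg, neg_sub]

theorem nsq_step (x z : Site d) (e : Dir d) :
    (nsq (x - z) + 1) / 3 ≤ nsq (x + uvec e - z) + 1 := by
  rw [← nrm_sq, ← nrm_sq]
  have h1 := nrm_step' x z e
  have h2 := nrm_nonneg (x - z)
  have h3 := nrm_nonneg (x + uvec e - z)
  nlinarith [sq_nonneg (nrm (x + uvec e - z) - 1)]

theorem rpow_step (x z : Site d) (e : Dir d) {p : ℝ} (hp : 0 ≤ p) :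
    (nsq (x + uvec e - z) + 1) ^ (-p) ≤ 3 ^ p * (nsq (x - z) + 1) ^ (-p) := by
  have h0 := nsq_nonneg (x - z)
  have h1 : (nsq (x + uvec e - z) + 1) ^ (-p) ≤ ((nsq (x - z) + 1) / 3) ^ (-p) :=
    Real.rpow_le_rpow_of_nonpos (by positivity) (nsq_step x z e) (by linarith)
  refine h1.trans (le_of_eq ?_)
  rw [Real.div_rpow (by positivity) (by norm_num), Real.rpow_neg (by norm_num : (0 : ℝ) ≤ 3)]
  field_simp

theorem one_rpow_le (x : Site d) {p : ℝ} (hp : 0 ≤ p) : (nsq x + 1) ^ (-p) ≤ 1 := by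
  have h0 := nsq_nonneg x
  exact Real.rpow_le_one_of_one_le_of_nonpos (by linarith) (by linarith)

/-! ### The quadratic term -/

theorem bt_nonneg (hd : 3 ≤ d) : 0 ≤ bt d := by
  unfold bt
  have : (3 : ℝ) ≤ d := by exact_mod_cast hd
  linarith

theorem q_bd (hd : 3 ≤ d) {C ε R m : ℝ} {z : Site d} {u W : Site d → ℝ} (hC : 1 ≤ C)
    (hm : 1 ≤ m) (hu : OutF C ε R m z u W) {x : Site d} (hx : nrm x ≤ R) :
    PP (fun y => u y ^ 2) x ≤ (4 * C ^ 2 * 3 ^ d) * (nsq (x - z) + 1) ^ (-(2 * bt d)) ∧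
      PP (fun y => u y ^ 2) x ≤ (4 * C ^ 2 * 3 ^ d) * m ^ 2 * (m + nrm (x - z)) ^ 2 *
        (nsq (x - z) + 1) ^ (-(d : ℝ)) := by
  have hd' : (3 : ℝ) ≤ d := by exact_mod_cast hd
  have hb := bt_nonneg hd
  have h3d : (3 : ℝ) ^ (2 * bt d) ≤ 3 ^ d := by
    rw [← Real.rpow_natCast]
    refine Real.rpow_le_rpow_of_exponent_le (by norm_num) ?_
    unfold bt
    linarith
  constructor
  · refine PP_le_const hd fun e => ?_
    have h1 : nrm (x + uvec e) ≤ R + 1 := (nrm_step0 x e).trans (by linarith)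
    have h2 := hu.b1 _ h1
    have h3 := hu.nn _ h1
    have h4 : u (x + uvec e) ^ 2 ≤ (C * (nsq (x + uvec e - z) + 1) ^ (-bt d)) ^ 2 :=
      pow_le_pow_left₀ h3 h2 2
    refine h4.trans ?_
    have h5 : ((nsq (x + uvec e - z) + 1) ^ (-bt d)) ^ 2 =
        (nsq (x + uvec e - z) + 1) ^ (-(2 * bt d)) := by
      rw [← Real.rpow_natCast, ← Real.rpow_mul (by have := nsq_nonneg (x + uvec e - z); linarith)]
      congr 1
      push_cast
      ring
    rw [mul_pow, h5]
    have h6 := rpow_step x z e (p := 2 * bt d) (by linarith)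
    have h7 : 0 ≤ (nsq (x - z) + 1) ^ (-(2 * bt d)) :=
      Real.rpow_nonneg (by have := nsq_nonneg (x - z); linarith) _
    have h8 : C ^ 2 * (nsq (x + uvec e - z) + 1) ^ (-(2 * bt d)) ≤
        C ^ 2 * (3 ^ d * (nsq (x - z) + 1) ^ (-(2 * bt d))) := by
      refine mul_le_mul_of_nonneg_left (h6.trans ?_) (by positivity)
      exact mul_le_mul_of_nonneg_right h3d h7
    refine h8.trans ?_
    have h9 : 0 ≤ C ^ 2 * 3 ^ d * (nsq (x - z) + 1) ^ (-(2 * bt d)) := by positivity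
    nlinarith
  · refine PP_le_const hd fun e => ?_
    have h1 : nrm (x + uvec e) ≤ R + 1 := (nrm_step0 x e).trans (by linarith)
    have h2 := hu.b2 _ h1
    have h3 := hu.nn _ h1
    have h4 : u (x + uvec e) ^ 2 ≤ (C * m * (m + nrm (x + uvec e - z)) *
        (nsq (x + uvec e - z) + 1) ^ (-((d : ℝ) / 2))) ^ 2 :=
      pow_le_pow_left₀ h3 h2 2
    refine h4.trans ?_
    have h5 : ((nsq (x + uvec e - z) + 1) ^ (-((d : ℝ) / 2))) ^ 2 =
        (nsq (x + uvec e - z) + 1) ^ (-(d : ℝ)) := by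
      rw [← Real.rpow_natCast, ← Real.rpow_mul (by have := nsq_nonneg (x + uvec e - z); linarith)]
      congr 1
      push_cast
      ring
    rw [mul_pow, h5]
    have h6 := rpow_step x z e (p := (d : ℝ)) (by linarith)
    rw [Real.rpow_natCast] at h6
    have h7 : 0 ≤ (nsq (x - z) + 1) ^ (-(d : ℝ)) :=
      Real.rpow_nonneg (by have := nsq_nonneg (x - z); linarith) _
    have h10 : m + nrm (x + uvec e - z) ≤ 2 * (m + nrm (x - z)) := by
      have := nrm_step x z e
      have := nrm_nonneg (x - z)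
      linarith
    have h11 := nrm_nonneg (x + uvec e - z)
    have h12 : (C * m * (m + nrm (x + uvec e - z))) ^ 2 ≤
        (C * m * (2 * (m + nrm (x - z)))) ^ 2 := by
      refine pow_le_pow_left₀ (by positivity) ?_ 2
      exact mul_le_mul_of_nonneg_left h10 (by positivity)
    calc (C * m * (m + nrm (x + uvec e - z))) ^ 2 * (nsq (x + uvec e - z) + 1) ^ (-(d : ℝ))
        ≤ (C * m * (2 * (m + nrm (x - z)))) ^ 2 * (3 ^ d * (nsq (x - z) + 1) ^ (-(d : ℝ))) := by
          refine mul_le_mul h12 h6 ?_ (by positivity)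
          exact Real.rpow_nonneg (by have := nsq_nonneg (x + uvec e - z); linarith) _
      _ = _ := by ring

theorem PP_sq_nonneg (u : Site d → ℝ) (x : Site d) : 0 ≤ PP (fun y => u y ^ 2) x :=
  PP_nonneg fun e => sq_nonneg _

/-- The hypotheses of the supermartingale. -/
theorem HU_mk (hMAX : S_MAX) (hd : 3 ≤ d) {C1 C2 η ε R Rs m lam : ℝ} {z : Site d}
    {u W w : Site d → ℝ} (hC1 : 1 ≤ C1) (hC2 : 1 ≤ C2)
    (hR : 1 ≤ R) (hlam : 0 ≤ lam)
    (hu : OutF C2 ε R m z u W) (hRs0 : 0 ≤ Rs) (hRs : Rs ≤ R)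
    (hw : GP Rs (fun x => PP (fun y => u y ^ 2) x) w)
    (h1 : 4 * C1 * lam * (C2 * R ^ (ta d + ε)) ≤ 1) (h2 : 2 * lam * C2 ≤ η) :
    HU C1 η (Bl d Rs) (fun x => if nrm x ≤ R + 1 then lam * u x else 0)
      (fun x => lam * u x + 4 * C1 * lam ^ 2 * w x) := by
  have hwW : ∀ x, nrm x ≤ Rs + 1 → w x ≤ W x := hMAX d Rs _ w W hd hRs0 hw
    (fun x hx => hu.wnn x (by linarith)) (fun x hx => hu.wsup x (by linarith))
  have hle : ∀ x, nrm x ≤ Rs + 1 → 4 * C1 * lam ^ 2 * w x ≤ lam * u x := by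
    intro x hx
    have h3 := hwW x hx
    have h4 := hu.wle x (by linarith)
    have h5 := hu.nn x (by linarith)
    have h6 : 4 * C1 * lam ^ 2 * w x ≤ 4 * C1 * lam ^ 2 * (C2 * R ^ (ta d + ε) * u x) :=
      mul_le_mul_of_nonneg_left (h3.trans h4) (by positivity)
    refine h6.trans ?_
    have h7 : 4 * C1 * lam ^ 2 * (C2 * R ^ (ta d + ε) * u x) =
        (4 * C1 * lam * (C2 * R ^ (ta d + ε))) * (lam * u x) := by ring
    rw [h7]
    exact mul_le_of_le_one_left (mul_nonneg hlam h5) h1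
  constructor
  · intro x hx e
    have hx' : nrm (x + uvec e) ≤ Rs + 1 := (nrm_step0 x e).trans (by
      have : nrm x ≤ Rs := hx
      linarith)
    have hx'' : nrm (x + uvec e) ≤ R + 1 := by linarith
    have h3 := hu.nn _ hx''
    have h4 := hw.nn (x + uvec e)
    have h5 := hle _ hx'
    have h6 := hu.b1 _ hx''
    have h7 := one_rpow_le (x + uvec e - z) (bt_nonneg hd)
    have h8 : u (x + uvec e) ≤ C2 := h6.trans (by
      calc C2 * (nsq (x + uvec e - z) + 1) ^ (-bt d) ≤ C2 * 1 :=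
            mul_le_mul_of_nonneg_left h7 (by linarith)
        _ = C2 := mul_one _)
    have h9 : 0 ≤ lam * u (x + uvec e) := mul_nonneg hlam h3
    have h10 : 0 ≤ 4 * C1 * lam ^ 2 * w (x + uvec e) := by positivity
    refine ⟨by linarith, ?_, ?_⟩
    · have h11 : lam * u (x + uvec e) ≤ lam * C2 := mul_le_mul_of_nonneg_left h8 hlam
      show lam * u (x + uvec e) + 4 * C1 * lam ^ 2 * w (x + uvec e) ≤ η
      linarith
    · show (if nrm (x + uvec e) ≤ R + 1 then lam * u (x + uvec e) else 0) ≤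
        lam * u (x + uvec e) + 4 * C1 * lam ^ 2 * w (x + uvec e)
      rw [if_pos hx'']
      linarith
  · intro x hx
    have hxR : nrm x ≤ Rs := hx
    have h3 := hu.sup x (by linarith)
    have h4 := hw.eq x hxR
    have h5 : PP (fun y => (lam * u y + 4 * C1 * lam ^ 2 * w y) ^ 2) x ≤
        PP (fun y => (4 * lam ^ 2) * u y ^ 2 + 0 * u y) x := by
      refine PP_mono fun e => ?_
      have hx' : nrm (x + uvec e) ≤ Rs + 1 := (nrm_step0 x e).trans (by linarith)
      have h6 := hle _ hx'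
      have h7 := hu.nn (x + uvec e) (by linarith)
      have h8 := hw.nn (x + uvec e)
      have h9 : 0 ≤ lam * u (x + uvec e) := mul_nonneg hlam h7
      have h10 : 0 ≤ 4 * C1 * lam ^ 2 * w (x + uvec e) := by positivity
      have h11 : (lam * u (x + uvec e) + 4 * C1 * lam ^ 2 * w (x + uvec e)) ^ 2 ≤
          (2 * (lam * u (x + uvec e))) ^ 2 := by
        refine pow_le_pow_left₀ (by linarith) (by linarith) 2
      refine h11.trans (le_of_eq ?_)
      ring
    rw [PP_lin, zero_mul, add_zero] at h5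
    have h6 : PP (fun x => lam * u x + 4 * C1 * lam ^ 2 * w x) x =
        lam * PP u x + 4 * C1 * lam ^ 2 * PP w x := PP_lin u w _ _ x
    rw [h6]
    have h7 : C1 * PP (fun y => (lam * u y + 4 * C1 * lam ^ 2 * w y) ^ 2) x ≤
        C1 * (4 * lam ^ 2 * PP (fun y => u y ^ 2) x) :=
      mul_le_mul_of_nonneg_left h5 (by linarith)
    have h8 : PP w x = w x - PP (fun y => u y ^ 2) x := by linarith
    have h9 : lam * PP u x ≤ lam * u x := mul_le_mul_of_nonneg_left h3 hlam
    show lam * PP u x + 4 * C1 * lam ^ 2 * PP w x +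
      C1 * PP (fun y => (lam * u y + 4 * C1 * lam ^ 2 * w y) ^ 2) x ≤
        lam * u x + 4 * C1 * lam ^ 2 * w x
    rw [h8]
    nlinarith

/-! ### Real inequalities -/

theorem ta_nonneg (d : ℕ) : 0 ≤ ta d := by
  unfold ta
  split_ifs <;> norm_num

theorem ta_le_one (d : ℕ) : ta d ≤ 1 := by
  unfold ta
  split_ifs <;> norm_num

theorem absorb {ε R : ℝ} (d : ℕ) (hε : 0 < ε) (hR : 1 ≤ R) :
    (R + 1) ^ ta d * (1 + Real.log (R + 1)) ≤ 2 * (2 + 1 / ε) * R ^ (ta d + ε) := by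
  have h1 : (R + 1) ^ ta d ≤ 2 * R ^ ta d := by
    have h2 : (R + 1) ^ ta d ≤ (2 * R) ^ ta d :=
      Real.rpow_le_rpow (by linarith) (by linarith) (ta_nonneg d)
    rw [Real.mul_rpow (by norm_num) (by linarith)] at h2
    have h3 : (2 : ℝ) ^ ta d ≤ 2 ^ (1 : ℝ) :=
      Real.rpow_le_rpow_of_exponent_le (by norm_num) (ta_le_one d)
    rw [Real.rpow_one] at h3
    refine h2.trans (mul_le_mul_of_nonneg_right h3 (by positivity))
  have h4 : 1 + Real.log (R + 1) ≤ (2 + 1 / ε) * R ^ ε := by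
    have h5 : Real.log (R + 1) ≤ Real.log (2 * R) := Real.log_le_log (by linarith) (by linarith)
    rw [Real.log_mul (by norm_num) (by linarith)] at h5
    have h6 : Real.log 2 ≤ 1 := by
      have := Real.log_two_lt_d9
      linarith
    have h7 := Real.log_le_rpow_div (by linarith : 0 ≤ R) hε
    have h8 : 1 ≤ R ^ ε := Real.one_le_rpow hR hε.le
    have h9 : (2 + 1 / ε) * R ^ ε = 2 * R ^ ε + R ^ ε / ε := by ring
    rw [h9]
    linarith
  have h5 : 0 ≤ 1 + Real.log (R + 1) := by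
    have := Real.log_nonneg (by linarith : 1 ≤ R + 1)
    linarith
  calc (R + 1) ^ ta d * (1 + Real.log (R + 1)) ≤ (2 * R ^ ta d) * ((2 + 1 / ε) * R ^ ε) :=
        mul_le_mul h1 h4 h5 (by positivity)
    _ = 2 * (2 + 1 / ε) * (R ^ ta d * R ^ ε) := by ring
    _ = _ := by rw [← Real.rpow_add (by linarith)]

/-- The gain. -/
noncomputable def gg (d : ℕ) (w m : ℝ) : ℝ := w ^ d / m ^ (d - 2)

theorem gg_eq (hd : 3 ≤ d) {w m : ℝ} (hm : 0 < m) : w ^ d * m ^ 2 = gg d w m * m ^ d := by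
  unfold gg
  obtain ⟨k, rfl⟩ : ∃ k, d = k + 2 := ⟨d - 2, by omega⟩
  rw [Nat.add_sub_cancel, pow_add m k 2]
  field_simp

theorem gg_le (hd : 3 ≤ d) {w m : ℝ} (hw : 0 ≤ w) (hm : 0 < m) (h : w ≤ m) :
    gg d w m ≤ m ^ 2 := by
  have h1 := gg_eq hd (w := w) hm
  have h2 : w ^ d ≤ m ^ d := pow_le_pow_left₀ hw h d
  have h3 : gg d w m * m ^ d ≤ m ^ 2 * m ^ d := by
    rw [← h1, mul_comm (m ^ 2)]
    exact mul_le_mul_of_nonneg_right h2 (by positivity)
  exact le_of_mul_le_mul_right h3 (by positivity)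

/-- The exponent. -/
theorem exponent (hd : 3 ≤ d) {w m X C1 C4 Lam CC C : ℝ} (hw : 0 ≤ w) (hm : 0 < m) (hX : 0 < X)
    (hC1 : 0 < C1) (hC4 : 0 < C4) (hLam : 8 * C1 * C4 ≤ Lam) (hCC : 0 < CC)
    (hC : 2 * Lam * CC ^ 2 ≤ C) {S : ℝ}
    (hS : S ≤ C4 * m ^ 2 * X) :
    -(gg d w m / CC / (Lam * m ^ 2 * X) * (gg d w m / CC)) +
      4 * C1 * (gg d w m / CC / (Lam * m ^ 2 * X)) ^ 2 * S ≤
      -(w ^ (2 * d) * m ^ 2 / (C * m ^ (2 * d) * X)) := by
  have hg : 0 ≤ gg d w m := by unfold gg; positivity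
  have hL : 0 < Lam := lt_of_lt_of_le (by positivity) hLam
  have hCpos : 0 < C := lt_of_lt_of_le (by positivity) hC
  set G := gg d w m / CC with hG
  have hG0 : 0 ≤ G := by positivity
  have h1 : 4 * C1 * (G / (Lam * m ^ 2 * X)) ^ 2 * S ≤
      4 * C1 * (G / (Lam * m ^ 2 * X)) ^ 2 * (C4 * m ^ 2 * X) :=
    mul_le_mul_of_nonneg_left hS (by positivity)
  have h2 : 4 * C1 * (G / (Lam * m ^ 2 * X)) ^ 2 * (C4 * m ^ 2 * X) =
      (4 * C1 * C4 / Lam) * (G ^ 2 / (Lam * m ^ 2 * X)) := by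
    field_simp
  have h3 : 4 * C1 * C4 / Lam ≤ 1 / 2 := by
    rw [div_le_iff₀ hL]
    linarith
  have h4 : G / (Lam * m ^ 2 * X) * G = G ^ 2 / (Lam * m ^ 2 * X) := by ring
  have h5 : 0 ≤ G ^ 2 / (Lam * m ^ 2 * X) := by positivity
  have h6 : (4 * C1 * C4 / Lam) * (G ^ 2 / (Lam * m ^ 2 * X)) ≤
      1 / 2 * (G ^ 2 / (Lam * m ^ 2 * X)) := mul_le_mul_of_nonneg_right h3 h5
  have h7 : w ^ (2 * d) * m ^ 2 / (C * m ^ (2 * d) * X) ≤
      1 / 2 * (G ^ 2 / (Lam * m ^ 2 * X)) := by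
    have h8 : w ^ (2 * d) * m ^ 2 / (C * m ^ (2 * d) * X) = gg d w m ^ 2 / (C * m ^ 2 * X) := by
      have h9 := gg_eq hd (w := w) hm
      have h10 : w ^ (2 * d) * m ^ 2 * m ^ 2 = gg d w m ^ 2 * m ^ (2 * d) := by
        have : (w ^ d * m ^ 2) ^ 2 = (gg d w m * m ^ d) ^ 2 := by rw [h9]
        calc w ^ (2 * d) * m ^ 2 * m ^ 2 = (w ^ d * m ^ 2) ^ 2 := by ring
          _ = _ := by rw [this]; ring
      rw [div_eq_div_iff (by positivity) (by positivity)]
      calc w ^ (2 * d) * m ^ 2 * (C * m ^ 2 * X) = (w ^ (2 * d) * m ^ 2 * m ^ 2) * (C * X) := by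
            ring
        _ = _ := by rw [h10]; ring
    rw [h8, hG, div_pow]
    rw [show 1 / 2 * (gg d w m ^ 2 / CC ^ 2 / (Lam * m ^ 2 * X)) =
      gg d w m ^ 2 / ((2 * Lam * CC ^ 2) * m ^ 2 * X) by field_simp]
    refine div_le_div_of_nonneg_left (by positivity) (by positivity) ?_
    have : 0 ≤ m ^ 2 * X := by positivity
    nlinarith
  rw [h4]
  linarith

/-- Loss in the main case. -/
theorem lossA (hd : 3 ≤ d) (hom : 0 < om d) {C2 m h E R u0 ρ : ℝ} (n : ℕ)
    (hC2 : 1 ≤ C2) (hm : 1 ≤ m) (hh : 1 ≤ h) (hE : h ≤ E)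
    (hR : rad d (n + 2) ≤ R) (hR1 : 1 ≤ R) (hu0 : 0 ≤ u0) (hu : u0 ≤ C2 * m / R ^ (d - 1))
    (hρ : ρ = rad d (n + 1) - h) (hρ0 : 0 ≤ ρ) :
    ((n : ℝ) + 2) * u0 - om d * ρ ^ d * u0 + C2 * m * E ≤
      C2 * (om d * d * (1 + rad d 1) + 1) * (m * E) := by
  obtain ⟨k, rfl⟩ : ∃ k, d = k + 1 := ⟨d - 1, by omega⟩
  rw [Nat.add_sub_cancel] at hu
  have h1 := rad_pow hd hom (n + 2)
  have h2 : rad (k + 1) (n + 2) ≤ rad (k + 1) (n + 1) + rad (k + 1) 1 := rad_succ hd hom (n + 1)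
  have h2' : rad (k + 1) (n + 1) ≤ rad (k + 1) (n + 2) := rad_mono hom (by omega)
  have hr1 := rad_nonneg hom 1
  have hr2 := rad_nonneg hom (n + 2)
  have h3 : ((n : ℝ) + 2) = om (k + 1) * rad (k + 1) (n + 2) ^ (k + 1) := by
    rw [h1]; push_cast; rfl
  have h4 := pow_sub_le hρ0 (by linarith : ρ ≤ rad (k + 1) (n + 2)) k
  have h5 : rad (k + 1) (n + 2) - ρ ≤ (1 + rad (k + 1) 1) * h := by
    rw [hρ]
    nlinarith
  have h6 : rad (k + 1) (n + 2) ^ k * u0 ≤ C2 * m := by
    have h7 : rad (k + 1) (n + 2) ^ k ≤ R ^ k := pow_le_pow_left₀ hr2 hR k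
    calc rad (k + 1) (n + 2) ^ k * u0 ≤ R ^ k * (C2 * m / R ^ k) :=
          mul_le_mul h7 hu hu0 (by positivity)
      _ = C2 * m := by field_simp
  have h8 : (rad (k + 1) (n + 2) ^ (k + 1) - ρ ^ (k + 1)) * u0 ≤
      ((k : ℝ) + 1) * (C2 * m) * ((1 + rad (k + 1) 1) * h) := by
    calc (rad (k + 1) (n + 2) ^ (k + 1) - ρ ^ (k + 1)) * u0
        ≤ ((k + 1) * rad (k + 1) (n + 2) ^ k * (rad (k + 1) (n + 2) - ρ)) * u0 :=
          mul_le_mul_of_nonneg_right h4 hu0
      _ = (k + 1) * (rad (k + 1) (n + 2) ^ k * u0) * (rad (k + 1) (n + 2) - ρ) := by ring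
      _ ≤ (k + 1) * (C2 * m) * ((1 + rad (k + 1) 1) * h) := by
          refine mul_le_mul (mul_le_mul_of_nonneg_left h6 (by positivity)) h5 ?_ (by positivity)
          rw [hρ]
          linarith
  have h9 : ((n : ℝ) + 2) * u0 - om (k + 1) * ρ ^ (k + 1) * u0 =
      om (k + 1) * ((rad (k + 1) (n + 2) ^ (k + 1) - ρ ^ (k + 1)) * u0) := by
    rw [h3]; ring
  rw [h9]
  have h10 := mul_le_mul_of_nonneg_left h8 hom.le
  have h11 : om (k + 1) * (((k : ℝ) + 1) * (C2 * m) * ((1 + rad (k + 1) 1) * h)) ≤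
      om (k + 1) * (((k : ℝ) + 1) * (C2 * m) * ((1 + rad (k + 1) 1) * E)) := by
    refine mul_le_mul_of_nonneg_left ?_ hom.le
    refine mul_le_mul_of_nonneg_left ?_ (by positivity)
    exact mul_le_mul_of_nonneg_left hE (by positivity)
  push_cast
  nlinarith

/-- Loss in the second case. -/
theorem lossB (hd : 3 ≤ d) (hom : 0 < om d) {C2 m h E R u0 K : ℝ} (n : ℕ)
    (hC2 : 1 ≤ C2) (hm : 1 ≤ m) (hh : 1 ≤ h) (hE : h ≤ E) (hK : 4 ≤ K)
    (hhR : h ≤ R) (hu0 : 0 ≤ u0) (hu : u0 ≤ C2 * m / R ^ (d - 1))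
    (hρ : rad d (n + 1) ≤ K * h) :
    ((n : ℝ) + 2) * u0 ≤ om d * (K + rad d 1) ^ d * C2 * (m * E) := by
  obtain ⟨k, rfl⟩ : ∃ k, d = k + 1 := ⟨d - 1, by omega⟩
  rw [Nat.add_sub_cancel] at hu
  have h1 := rad_pow hd hom (n + 2)
  have h2 : rad (k + 1) (n + 2) ≤ rad (k + 1) (n + 1) + rad (k + 1) 1 := rad_succ hd hom (n + 1)
  have hr1 := rad_nonneg hom 1
  have hr2 := rad_nonneg hom (n + 2)
  have h3 : ((n : ℝ) + 2) = om (k + 1) * rad (k + 1) (n + 2) ^ (k + 1) := by
    rw [h1]; push_cast; rfl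
  have h4 : rad (k + 1) (n + 2) ≤ (K + rad (k + 1) 1) * h := by nlinarith
  have h5 : rad (k + 1) (n + 2) ^ (k + 1) ≤ ((K + rad (k + 1) 1) * h) ^ (k + 1) :=
    pow_le_pow_left₀ hr2 h4 _
  have hR0 : 0 < R := by linarith
  have h6 : h ^ k * u0 ≤ C2 * m := by
    have h7 : h ^ k ≤ R ^ k := pow_le_pow_left₀ (by linarith) hhR k
    calc h ^ k * u0 ≤ R ^ k * (C2 * m / R ^ k) :=
          mul_le_mul h7 hu hu0 (by positivity)
      _ = C2 * m := by field_simp
  rw [h3]
  calc om (k + 1) * rad (k + 1) (n + 2) ^ (k + 1) * u0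
      ≤ om (k + 1) * ((K + rad (k + 1) 1) * h) ^ (k + 1) * u0 := by
        refine mul_le_mul_of_nonneg_right ?_ hu0
        exact mul_le_mul_of_nonneg_left h5 hom.le
    _ = om (k + 1) * (K + rad (k + 1) 1) ^ (k + 1) * h * (h ^ k * u0) := by
        rw [mul_pow, pow_succ h k]; ring
    _ ≤ om (k + 1) * (K + rad (k + 1) 1) ^ (k + 1) * h * (C2 * m) := by
        refine mul_le_mul_of_nonneg_left h6 ?_
        have : 0 ≤ K + rad (k + 1) 1 := by linarith
        positivity
    _ ≤ om (k + 1) * (K + rad (k + 1) 1) ^ (k + 1) * E * (C2 * m) := by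
        refine mul_le_mul_of_nonneg_right ?_ (by positivity)
        refine mul_le_mul_of_nonneg_left hE ?_
        have : 0 ≤ K + rad (k + 1) 1 := by linarith
        positivity
    _ = _ := by ring

/-! ### Lower bounds for the sum -/

/-- The weight of a settled particle. -/
noncomputable def aa (lam R : ℝ) (u : Site d → ℝ) (x : Site d) : ℝ :=
  if nrm x ≤ R + 1 then lam * u x else 0

theorem aa_nonneg {C ε R m lam : ℝ} {z : Site d} {u W : Site d → ℝ} (hlam : 0 ≤ lam)
    (hu : OutF C ε R m z u W) (x : Site d) : 0 ≤ aa lam R u x := by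
  unfold aa
  split_ifs with h
  · exact mul_nonneg hlam (hu.nn x h)
  · exact le_refl _

open Classical in
theorem sum_near {C ε R m lam r c : ℝ} {z : Site d} {u W : Site d → ℝ} (hlam : 0 ≤ lam)
    (hC : 0 < C) (hm : 0 < m)
    (hu : OutF C ε R m z u W) (hr : r ≤ m) {B : Finset (Site d)} (hB : ∀ x ∈ B, nrm x ≤ R + 1)
    (hz : z ∈ B) (hth : ¬ Thin z r c B) :
    lam * (c / (C * m ^ (d - 2))) ≤ ∑ y ∈ B.filter (fun y => nrm (y - z) ≤ r), aa lam R u y := by
  have h1 : c < (B.filter (fun y => nrm (y - z) ≤ r)).card := by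
    by_contra h
    apply hth
    refine ⟨hz, ?_⟩
    rw [not_lt] at h
    refine le_of_eq_of_le ?_ h
    rw [← Set.ncard_coe_finset]
    congr 2
    ext y
    simp
  have h2 : ∀ y ∈ B.filter (fun y => nrm (y - z) ≤ r), lam * (1 / (C * m ^ (d - 2))) ≤
      aa lam R u y := by
    intro y hy
    rw [Finset.mem_filter] at hy
    unfold aa
    rw [if_pos (hB y hy.1)]
    exact mul_le_mul_of_nonneg_left (hu.near y (hB y hy.1) (hy.2.trans hr)) hlam
  have h3 := Finset.sum_le_sum h2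
  rw [Finset.sum_const, nsmul_eq_mul] at h3
  refine le_trans ?_ h3
  have h4 : 0 ≤ lam * (1 / (C * m ^ (d - 2))) := by positivity
  calc lam * (c / (C * m ^ (d - 2))) = c * (lam * (1 / (C * m ^ (d - 2)))) := by ring
    _ ≤ _ := mul_le_mul_of_nonneg_right h1.le h4

open Classical in
theorem sum_all {C ε R m lam r c ρ : ℝ} {z : Site d} {u W : Site d → ℝ} (hlam : 0 ≤ lam)
    (hC : 0 < C) (hm : 0 < m)
    (hu : OutF C ε R m z u W) (hr : r ≤ m) {B : Finset (Site d)} (hB : ∀ x ∈ B, nrm x ≤ R + 1)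
    (hz : z ∈ B) (hth : ¬ Thin z r c B) (hzR : R < nrm z) (hρ : ρ + m ≤ R)
    (hb : bF d ρ ⊆ B) :
    lam * (c / (C * m ^ (d - 2))) + lam * ∑ x ∈ bF d ρ, u x ≤ ∑ y ∈ B, aa lam R u y := by
  have h1 := sum_near hlam hC hm hu hr hB hz hth
  have h2 : lam * ∑ x ∈ bF d ρ, u x = ∑ x ∈ bF d ρ, aa lam R u x := by
    rw [Finset.mul_sum]
    refine Finset.sum_congr rfl fun x hx => ?_
    rw [mem_bF] at hx
    unfold aa
    rw [if_pos (by linarith)]
  rw [h2]
  have h3 : Disjoint (B.filter (fun y => nrm (y - z) ≤ r)) (bF d ρ) := by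
    rw [Finset.disjoint_left]
    intro y hy1 hy2
    rw [Finset.mem_filter] at hy1
    rw [mem_bF] at hy2
    have h4 := nrm_sub_le y (y - z)
    rw [sub_sub_cancel] at h4
    linarith [hy1.2]
  have h5 : ∑ y ∈ B.filter (fun y => nrm (y - z) ≤ r) ∪ bF d ρ, aa lam R u y ≤
      ∑ y ∈ B, aa lam R u y := by
    refine Finset.sum_le_sum_of_subset_of_nonneg ?_ fun y _ _ => aa_nonneg hlam hu y
    exact Finset.union_subset (Finset.filter_subset _ _) hb
  rw [Finset.sum_union h3] at h5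
  linarith

end POP

open POP in
/-- **Part PO.** -/
theorem t_PO : S_PO := by
  intro hBAS hSEG hUPC hPOT hMAX hOUT hQV1 hNTT hSUP hCNT d ν ε K hd hν hε hε2 hK
  obtain ⟨hom, -⟩ := hCNT d hd
  obtain ⟨C1, η, hC1, hη, hη1, hU⟩ := hUPC ν hν
  obtain ⟨C2, hC2, hO⟩ := hOUT d ε hd hε hε2
  obtain ⟨CN, hCN, hN⟩ := hNTT d ν hd hν
  obtain ⟨C3, hC3, hQ⟩ := hQV1 d 1 (4 * C2 ^ 2 * 3 ^ d) hd one_pos le_rfl (by
    have h1 : (1 : ℝ) ≤ C2 ^ 2 := one_le_pow₀ hC2
    have h2 : (1 : ℝ) ≤ 3 ^ d := one_le_pow₀ (by norm_num)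
    nlinarith)
  set C4 : ℝ := 2 * C3 * (2 + 1 / ε) with hC4
  have hC4pos : 0 < C4 := by positivity
  set CC : ℝ := 2 * CN * C2 with hCC
  have hCCpos : 0 < CC := by positivity
  set Lam : ℝ := 8 * C1 * C4 + 4 * C1 * C2 + 2 * C2 / η with hLam
  have hLam0 : 0 < Lam := by positivity
  set L1 : ℝ := C2 * (om d * d * (1 + rad d 1) + 1) with hL1
  set L2 : ℝ := om d * (K + rad d 1) ^ d * C2 with hL2
  have hr1 := rad_nonneg hom 1
  have hL1pos : 0 ≤ L1 := by positivity
  have hL2pos : 0 ≤ L2 := by positivity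
  refine ⟨C2 + CN + rad d 1 + CC * L1 + CC * L2 + 2 * Lam * CC ^ 2, ?_, ?_⟩
  · have : 0 ≤ CC * L1 + CC * L2 + 2 * Lam * CC ^ 2 := by positivity
    linarith
  intro n J m h w z hJ hw hJm hh hhm hz1 hz2 hcond
  set CF : ℝ := C2 + CN + rad d 1 + CC * L1 + CC * L2 + 2 * Lam * CC ^ 2 with hCF
  set R : ℝ := rad d (n + 2) + 4 * m with hR
  have hpos1 : 0 ≤ CC * L1 := by positivity
  have hpos2 : 0 ≤ CC * L2 := by positivity
  have hpos3 : 0 ≤ 2 * Lam * CC ^ 2 := by positivity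
  have hCFC2 : C2 ≤ CF := by linarith
  have hCFCN : CN ≤ CF := by linarith
  have hCFr : rad d 1 ≤ CF := by linarith
  have hCF1 : CC * L1 ≤ CF := by linarith
  have hCF2 : CC * L2 ≤ CF := by linarith
  have hCF3 : 2 * Lam * CC ^ 2 ≤ CF := by linarith
  have hh1 : 1 ≤ h := by linarith
  have hm1 : 1 ≤ m := by linarith
  have hw1 : 1 ≤ w := by linarith
  have hwm : w ≤ m := by
    have h1 : (2 : ℝ) ≤ J := by exact_mod_cast hJ
    have h2 : 2 * (w + 2) ≤ J * (w + 2) := mul_le_mul_of_nonneg_right h1 (by linarith)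
    linarith
  have hrn2 := rad_nonneg hom (n + 2)
  have hrn1 := rad_nonneg hom (n + 1)
  have hrmono : rad d (n + 1) ≤ rad d (n + 2) := rad_mono hom (by omega)
  have hrsucc : rad d (n + 2) ≤ rad d (n + 1) + rad d 1 := rad_succ hd hom (n + 1)
  have hR1 : 1 ≤ R := by linarith
  have hRm : 4 * m ≤ R := by linarith
  obtain ⟨u, W, hu⟩ := hO R m z (by linarith) hRm hz1 hz2
  set X : ℝ := R ^ (ta d + ε) with hX
  have hX1 : 1 ≤ X := Real.one_le_rpow hR1 (by have := ta_nonneg d; linarith)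
  set g : ℝ := gg d w m with hg
  have hg0 : 0 ≤ g := by rw [hg]; unfold gg; positivity
  have hgm : g ≤ m ^ 2 := gg_le hd (by linarith) (by linarith) hwm
  set E : ℝ := h + (1 + m / h) * (1 + Real.log R) with hE
  have hlogR : 0 ≤ Real.log R := Real.log_nonneg hR1
  have hhE : h ≤ E := by
    have : 0 ≤ (1 + m / h) * (1 + Real.log R) := by positivity
    linarith
  have hCEg : CF * (m * E) ≤ g := by
    have h1 : CF * (m * E) * m ^ d ≤ g * m ^ d := by
      rw [hg, ← gg_eq hd (by linarith)]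
      refine le_of_eq_of_le ?_ hcond
      ring
    exact le_of_mul_le_mul_right h1 (by positivity)
  have hmE : 0 ≤ m * E := by
    have : 0 ≤ E := by linarith
    positivity
  set G : ℝ := g / CC with hG
  have hG0 : 0 ≤ G := by positivity
  have hLoss1 : L1 * (m * E) ≤ G := by
    rw [hG, le_div_iff₀ hCCpos]
    refine le_trans ?_ hCEg
    have := mul_le_mul_of_nonneg_right hCF1 hmE
    linarith
  have hLoss2 : L2 * (m * E) ≤ G := by
    rw [hG, le_div_iff₀ hCCpos]
    refine le_trans ?_ hCEg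
    have := mul_le_mul_of_nonneg_right hCF2 hmE
    linarith
  set lam : ℝ := G / (Lam * m ^ 2 * X) with hlam
  have hlam0 : 0 ≤ lam := by positivity
  have hlamX : lam * X ≤ 1 / Lam := by
    rw [hlam, div_mul_eq_mul_div, div_le_div_iff₀ (by positivity) hLam0, one_mul]
    have h1 : G ≤ m ^ 2 := by
      rw [hG, div_le_iff₀ hCCpos]
      have h2 : 1 ≤ CC := by
        have : 1 ≤ CN * C2 := one_le_mul_of_one_le_of_one_le hCN hC2
        linarith
      calc g ≤ m ^ 2 * 1 := by rw [mul_one]; exact hgm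
        _ ≤ m ^ 2 * CC := mul_le_mul_of_nonneg_left h2 (by positivity)
    have h3 : 0 ≤ X * Lam := by positivity
    calc G * X * Lam = G * (X * Lam) := by ring
      _ ≤ m ^ 2 * (X * Lam) := mul_le_mul_of_nonneg_right h1 h3
      _ = Lam * m ^ 2 * X := by ring
  have hlam1 : lam ≤ 1 / Lam := by
    refine le_trans ?_ hlamX
    exact le_mul_of_one_le_right hlam0 hX1
  -- domains
  set Rs : ℕ → ℝ := fun s => rad d (s + 1) + 4 * m with hRs
  have hRs0 : ∀ s, 0 ≤ Rs s := by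
    intro s
    have := rad_nonneg hom (s + 1)
    show 0 ≤ rad d (s + 1) + 4 * m
    linarith
  have hDm : Dm d (4 * m) = fun s => Bl d (Rs s) := rfl
  have hDmn : Dm d (4 * m) (n + 1) = Bl d R := rfl
  -- Green potentials
  have hpot : ∀ s : ℕ, ∃ v : Site d → ℝ, GP (Rs s) (fun x => PP (fun y => u y ^ 2) x) v :=
    fun s => hPOT d (Rs s) _ hd (hRs0 s) (PP_sq_nonneg u)
  choose v hv using hpot
  have hsum : ∑ s ∈ Icc 1 (n + 1), v s 0 ≤ C4 * m ^ 2 * X := by
    have h1 := hQ (n + 1) (4 * m) m m z (fun x => PP (fun y => u y ^ 2) x) v hm1 le_rfl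
      (by linarith) (by
        show 1 * rad d (n + 2) ≤ nrm z
        linarith) (by linarith) (by
        show nrm z ≤ rad d (n + 2) + 4 * m + 1
        linarith) (by
        show rad d (n + 2) + 4 * m ≤ nrm z + m
        linarith) (PP_sq_nonneg u) (by
        intro x hx
        exact q_bd hd hC2 hm1 hu hx) (by
        intro s _ _
        exact hv s)
    refine h1.trans ?_
    show C3 * m ^ 2 * (R + 1) ^ ta d * (1 + Real.log (R + 1)) ≤ C4 * m ^ 2 * X
    have h2 := absorb d hε hR1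
    have h3 := mul_le_mul_of_nonneg_left h2 (by positivity : 0 ≤ C3 * m ^ 2)
    calc C3 * m ^ 2 * (R + 1) ^ ta d * (1 + Real.log (R + 1))
        = C3 * m ^ 2 * ((R + 1) ^ ta d * (1 + Real.log (R + 1))) := by ring
      _ ≤ _ := h3
      _ = _ := by rw [hC4, hX]; ring
  -- the supermartingale
  have hmart := hU d hd Rs (aa lam R u) (fun s x => lam * u x + 4 * C1 * lam ^ 2 * v s x)
    (fun s => 4 * C1 * lam ^ 2 * v s 0) n hRs0 (by
      intro s hs1 hs2
      constructor
      · refine HU_mk hMAX hd hC1 hC2 hR1 hlam0 hu (hRs0 s) ?_ (hv s) ?_ ?_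
        · show rad d (s + 1) + 4 * m ≤ R
          have : rad d (s + 1) ≤ rad d (n + 2) := rad_mono hom (by omega)
          linarith
        · have h1 : 4 * C1 * lam * (C2 * X) = 4 * C1 * C2 * (lam * X) := by ring
          rw [h1]
          have h2 : 4 * C1 * C2 * (lam * X) ≤ 4 * C1 * C2 * (1 / Lam) :=
            mul_le_mul_of_nonneg_left hlamX (by positivity)
          refine h2.trans ?_
          rw [mul_one_div, div_le_one hLam0, hLam]
          have : 0 ≤ 8 * C1 * C4 + 2 * C2 / η := by positivity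
          linarith
        · have h2 : 2 * lam * C2 ≤ 2 * C2 * (1 / Lam) := by
            have := mul_le_mul_of_nonneg_left hlam1 (by positivity : 0 ≤ 2 * C2)
            linarith
          refine h2.trans ?_
          rw [mul_one_div, div_le_iff₀ hLam0, hLam]
          have h3 : η * (2 * C2 / η) = 2 * C2 := by field_simp
          have h4 : 0 ≤ η * (8 * C1 * C4 + 4 * C1 * C2) := by positivity
          have h5 : η * (8 * C1 * C4 + 4 * C1 * C2 + 2 * C2 / η) =
              η * (8 * C1 * C4 + 4 * C1 * C2) + η * (2 * C2 / η) := by ring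
          rw [h5, h3]
          linarith
      · show lam * u 0 + 4 * C1 * lam ^ 2 * v s 0 ≤ aa lam R u 0 + 4 * C1 * lam ^ 2 * v s 0
        unfold aa
        rw [if_pos (by rw [nrm_zero]; linarith)])
  have ha0 : aa lam R u 0 = lam * u 0 := by
    unfold aa
    rw [if_pos (by rw [nrm_zero]; linarith)]
  have hu00 : 0 ≤ u 0 := hu.nn 0 (by rw [nrm_zero]; linarith)
  -- the lower bound on the good event
  have hlow : ∀ B : Finset (Site d), (∀ x ∈ B, nrm x ≤ R + 1) → z ∈ B →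
      ¬ Thin z (J * (w + 2)) (w ^ d / CN) B →
      (K * h ≤ rad d (n + 1) → bF d (rad d (n + 1) - h) ⊆ B) →
      lam * (((n : ℝ) + 2) * u 0 + G) ≤ ∑ y ∈ B, aa lam R u y := by
    intro B hB hzB hth hin
    have hnear : (w ^ d / CN) / (C2 * m ^ (d - 2)) = 2 * G := by
      rw [hG, hg, hCC]
      unfold gg
      field_simp
    by_cases hcase : K * h ≤ rad d (n + 1)
    · have hb := hin hcase
      have hKh : 4 * h ≤ K * h := mul_le_mul_of_nonneg_right hK (by linarith)
      have h1 := sum_all hlam0 (by linarith) (by linarith) hu hJm hB hzB hth hz1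
        (by linarith) hb
      rw [hnear] at h1
      have h2 := hu.tot (rad d (n + 1) - h) h hh1 hhm (by linarith) (by linarith)
        (by linarith) (by linarith)
      have h3 := lossA hd hom (E := E) (R := R) (u0 := u 0) n hC2 hm1 hh1 hhE (by linarith) hR1
        hu00 hu.zero rfl (by linarith)
      have h4 : ((n : ℝ) + 2) * u 0 + G ≤ 2 * G + ∑ x ∈ bF d (rad d (n + 1) - h), u x := by
        have h5 : om d * (rad d (n + 1) - h) ^ d * u 0 ≤
          ∑ x ∈ bF d (rad d (n + 1) - h), u x + C2 * m * E := h2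
        have h6 : C2 * (om d * d * (1 + rad d 1) + 1) * (m * E) ≤ G := hLoss1
        linarith
      have h5 := mul_le_mul_of_nonneg_left h4 hlam0
      linarith
    · rw [not_le] at hcase
      have h1 := sum_near hlam0 (by linarith) (by linarith) hu hJm hB hzB hth
      rw [hnear] at h1
      have h2 : ∑ y ∈ B.filter (fun y => nrm (y - z) ≤ J * (w + 2)), aa lam R u y ≤
          ∑ y ∈ B, aa lam R u y :=
        Finset.sum_le_sum_of_subset_of_nonneg (Finset.filter_subset _ _)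
          fun y _ _ => aa_nonneg hlam0 hu y
      have h3 := lossB hd hom (E := E) (R := R) (u0 := u 0) n hC2 hm1 hh1 hhE hK (by linarith)
        hu00 hu.zero hcase.le
      have h4 : ((n : ℝ) + 2) * u 0 + G ≤ 2 * G := by
        have h6 : om d * (K + rad d 1) ^ d * C2 * (m * E) ≤ G := hLoss2
        linarith
      have h5 := mul_le_mul_of_nonneg_left h4 hlam0
      linarith
  -- the pointwise estimate
  set cst : ℝ≥0∞ := ENNReal.ofReal (Real.exp (-(lam * (((n : ℝ) + 2) * u 0 + G)))) with hcst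
  set inn : Finset (Site d) → ℝ≥0∞ := fun A => if K * h ≤ rad d (n + 1) then
    ∑ y ∈ (bF d (rad d (n + 1) - h)).erase 0, ind (fun A : Finset (Site d) => y ∉ A) A
      else 0 with hinn
  have hpt : ∀ A : Finset (Site d), (0 : Site d) ∈ A → (A : Set (Site d)) ⊆ Bl d (Rs n) →
      KD ν (Dm d (4 * m) (n + 1)) (ind fun B : Finset (Site d) => z ∈ B) A ≤
        ENNReal.ofReal (4 / 2 ^ J) + cst * KD ν (Bl d (Rs (n + 1)))
          (fun B => ENNReal.ofReal (Real.exp (∑ y ∈ B, aa lam R u y))) A + inn A := by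
    intro A h0 hA
    rw [hDmn]
    have hRs1 : Bl d (Rs (n + 1)) = Bl d R := rfl
    rw [hRs1]
    have hAR : ∀ x ∈ A, nrm x ≤ R := by
      intro x hx
      have h1 : nrm x ≤ rad d (n + 1) + 4 * m := hA (Finset.mem_coe.2 hx)
      linarith
    by_cases hbad : K * h ≤ rad d (n + 1) ∧ ∃ y ∈ (bF d (rad d (n + 1) - h)).erase 0, y ∉ A
    · obtain ⟨hcase, y, hy, hyA⟩ := hbad
      have h1 : KD ν (Bl d R) (ind fun B : Finset (Site d) => z ∈ B) A ≤ 1 := by
        refine KD_le_one hBAS hd ν fun B => ?_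
        unfold ind
        split_ifs <;> simp
      have h2 : 1 ≤ inn A := by
        rw [hinn]
        simp only []
        rw [if_pos hcase]
        refine le_trans ?_ (Finset.single_le_sum (f := fun y =>
          ind (fun A : Finset (Site d) => y ∉ A) A) (fun _ _ => bot_le) hy)
        unfold ind
        rw [if_pos hyA]
      exact h1.trans (h2.trans le_add_self)
    · have hin : K * h ≤ rad d (n + 1) → bF d (rad d (n + 1) - h) ⊆ A := by
        intro hcase y hy
        by_contra hyA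
        apply hbad
        refine ⟨hcase, y, Finset.mem_erase.2 ⟨?_, hy⟩, hyA⟩
        rintro rfl
        exact hyA h0
      have h1 : KD ν (Bl d R) (ind fun B : Finset (Site d) => z ∈ B) A ≤
          KD ν (Bl d R) (fun B => ind (Thin z (J * (w + 2)) (w ^ d / CN)) B +
            cst * ENNReal.ofReal (Real.exp (∑ y ∈ B, aa lam R u y))) A := by
        refine KD_le_of hBAS hd ν fun B hB => ?_
        obtain ⟨hAB, hBA⟩ := hSUP d ν R A B hd (by linarith) hB
        have hBR : ∀ x ∈ B, nrm x ≤ R + 1 := by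
          intro x hx
          rcases hBA x hx with h | h
          · exact (hAR x h).trans (by linarith)
          · exact h
        by_cases hzB : z ∈ B
        · by_cases hth : Thin z (J * (w + 2)) (w ^ d / CN) B
          · refine le_trans ?_ le_self_add
            unfold ind
            rw [if_pos hzB, if_pos hth]
          · refine le_trans ?_ le_add_self
            have h2 := hlow B hBR hzB hth fun hcase => (hin hcase).trans hAB
            unfold ind
            rw [if_pos hzB, hcst, ← ENNReal.ofReal_mul (Real.exp_pos _).le, ← Real.exp_add,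
              ← ENNReal.ofReal_one]
            refine ENNReal.ofReal_le_ofReal ?_
            rw [← Real.exp_zero]
            refine Real.exp_le_exp.2 ?_
            linarith
        · unfold ind
          rw [if_neg hzB]
          exact bot_le
      rw [KD_add hBAS hd ν, KD_mul hBAS hd ν] at h1
      have h3 := hN (Bl d R) z J w A hJ (by linarith) (by
          intro hzA
          have := hAR z hzA
          linarith) h0 (by
          show nrm (0 : Site d) ≤ R
          rw [nrm_zero]; linarith) (by linarith)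
      refine h1.trans ?_
      refine le_trans ?_ le_self_add
      exact add_le_add h3 le_rfl
  -- integration
  have hint := hSEG d ν Rs n _ _ hd hRs0 hpt
  rw [hDm]
  rw [hDm] at hint
  refine hint.trans ?_
  rw [Eg_add hBAS hd ν, Eg_add hBAS hd ν, Eg_mul hBAS hd ν]
  refine add_le_add (add_le_add (Eg_const_le hBAS hd ν _ n _) ?_) ?_
  · refine (mul_le_mul_right hmart _).trans ?_
    rw [hcst, ← ENNReal.ofReal_mul (Real.exp_pos _).le, ← Real.exp_add]
    refine ENNReal.ofReal_le_ofReal (Real.exp_le_exp.2 ?_)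
    rw [ha0, ← Finset.mul_sum]
    have h1 := exponent hd (X := X) (by linarith : (0 : ℝ) ≤ w) (by linarith : (0 : ℝ) < m)
      (by linarith) (by linarith : 0 < C1) hC4pos (Lam := Lam) (by
        rw [hLam]
        have : 0 ≤ 4 * C1 * C2 + 2 * C2 / η := by positivity
        linarith) hCCpos hCF3 hsum
    refine le_trans (le_of_eq ?_) h1
    ring
  · by_cases hcase : K * h ≤ rad d (n + 1)
    · rw [if_pos hcase, hinn]
      simp only [if_pos hcase]
      rw [Eg_sum hBAS hd ν]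
    · rw [if_neg hcase, hinn]
      simp only [if_neg hcase]
      rw [Eg_zero hBAS hd ν]

end Pool.Agent.H45.BD
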